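import Mathlib

set_option autoImplicit false
set_option linter.unusedVariables false
set_option linter.unnecessarySeqFocus false

namespace Pool.Agent.Results.MP_712a2d_co.Full

open Finset

/-- An `(n,c)`-placement: `n * c` cells, at most `c` on every row, column and diagonal. -/
def IsPlacement (n c : ℕ) (S : Finset (Fin n × Fin n)) : Prop :=
  S.card = n * c ∧
  (∀ a : Fin n, (S.filter (fun p => p.1 = a)).card ≤ c) ∧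
  (∀ b : Fin n, (S.filter (fun p => p.2 = b)).card ≤ c) ∧
  (∀ k : ℕ, (S.filter (fun p => p.1.1 + p.2.1 = k)).card ≤ c) ∧
  (∀ d : ℤ, (S.filter (fun p => (p.1.1 : ℤ) - (p.2.1 : ℤ) = d)).card ≤ c)

lemma key (n c a u : ℕ) (ha : 0 < a) (h : Nat.Coprime a n ∨ (a ∣ n ∧ a ∣ c)) :
    (univ.filter (fun i : Fin n => (a * i.1 + u) % n < c)).card ≤ c := by
  rcases h with h | ⟨⟨q, rfl⟩, ⟨e, rfl⟩⟩
  · refine le_trans (card_le_card_of_injOn (t := range c) (fun i => (a * i.1 + u) % n)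
      (fun i hi => by simpa using hi) (fun i _ j _ hij => ?_)) (card_range c).le
    have h1 : a * i.1 ≡ a * j.1 [MOD n] := Nat.ModEq.add_right_cancel' u hij
    have h2 := Nat.ModEq.cancel_left_of_coprime h.symm h1
    exact Fin.ext (Nat.ModEq.eq_of_lt_of_lt h2 i.2 j.2)
  · refine le_trans (card_le_card_of_injOn (t := range e ×ˢ range a)
      (fun i => ((a * i.1 + u) % (a * q) / a, i.1 / q)) (fun i hi => ?_) (fun i _ j _ hij => ?_))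
      (by rw [card_product, card_range, card_range, mul_comm])
    · have hi' : (a * i.1 + u) % (a * q) < a * e := by simpa using hi
      simp only [coe_product, coe_range, Set.mem_prod, Set.mem_Iio]
      exact ⟨Nat.div_lt_of_lt_mul hi', Nat.div_lt_of_lt_mul (by rw [mul_comm q a]; exact i.2)⟩
    · have h1 : (a * i.1 + u) % (a * q) / a = (a * j.1 + u) % (a * q) / a := congrArg Prod.fst hij
      have h2 : i.1 / q = j.1 / q := congrArg Prod.snd hij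
      have h3 : (a * i.1 + u) % (a * q) % a = (a * j.1 + u) % (a * q) % a := by
        rw [Nat.mod_mul_right_mod, Nat.mod_mul_right_mod, Nat.mul_add_mod, Nat.mul_add_mod]
      have h4 : (a * i.1 + u) % (a * q) = (a * j.1 + u) % (a * q) := by
        rw [← Nat.div_add_mod ((a * i.1 + u) % (a * q)) a, h1, h3, Nat.div_add_mod]
      have h5 : a * i.1 ≡ a * j.1 [MOD a * q] := Nat.ModEq.add_right_cancel' u h4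
      have h6 : i.1 % q = j.1 % q := Nat.ModEq.mul_left_cancel' ha.ne' h5
      apply Fin.ext
      rw [← Nat.div_add_mod i.1 q, h2, h6, Nat.div_add_mod]

def sol (n c s : ℕ) : Finset (Fin n × Fin n) :=
  univ.filter (fun p => (2 * p.1.1 + s + p.2.1) % n < c)

lemma row (n c s : ℕ) (hc : c ≤ n) (a : Fin n) :
    ((sol n c s).filter (fun p => p.1 = a)).card = c := by
  have : NeZero n := ⟨by have := a.2; omega⟩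
  have h0 : (univ.filter (fun j : Fin n => j.1 < c)).card = c := by
    rw [Fin.card_filter_val_lt]; exact min_eq_right hc
  rw [← h0]
  conv_rhs => rw [h0, ← h0]
  refine card_bij (fun p _ => (⟨(2 * a.1 + s) % n, Nat.mod_lt _ (Nat.pos_of_neZero n)⟩ : Fin n) + p.2)
    ?_ ?_ ?_
  · intro p hp
    simp only [sol, mem_filter, mem_univ, true_and, h0] at hp ⊢
    rw [Fin.val_add, Nat.mod_add_mod, ← hp.2]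
    exact hp.1
  · intro p hp q hq h
    simp only [mem_filter] at hp hq
    exact Prod.ext (hp.2.trans hq.2.symm) (add_left_cancel h)
  · intro j hj
    refine ⟨(a, j - ⟨(2 * a.1 + s) % n, Nat.mod_lt _ (Nat.pos_of_neZero n)⟩), ?_, by simp⟩
    simp only [sol, mem_filter, mem_univ, true_and, and_true, h0] at hj ⊢
    have : (⟨(2 * a.1 + s) % n, Nat.mod_lt _ (Nat.pos_of_neZero n)⟩ : Fin n) +
        (j - ⟨(2 * a.1 + s) % n, Nat.mod_lt _ (Nat.pos_of_neZero n)⟩) = j := by simp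
    rw [← this, Fin.val_add, Nat.mod_add_mod] at hj
    exact hj

lemma alt (n c p : ℕ) (hp : p.Prime) (h6 : p ∣ 6) (h : Nat.gcd n 6 ∣ c) :
    Nat.Coprime p n ∨ (p ∣ n ∧ p ∣ c) := by
  by_cases hn : p ∣ n
  · exact Or.inr ⟨hn, (Nat.dvd_gcd hn h6).trans h⟩
  · exact Or.inl ((Nat.Prime.coprime_iff_not_dvd hp).2 hn)

lemma sol_ok (n c s : ℕ) (hc : c ≤ n) (h : Nat.gcd n 6 ∣ c) : IsPlacement n c (sol n c s) := by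
  refine ⟨?_, fun a => (row n c s hc a).le, fun b => ?_, fun k => ?_, fun d => ?_⟩
  · rw [card_eq_sum_card_fiberwise (s := sol n c s) (t := univ) (f := Prod.fst)
      (by intro x _; simp), sum_congr rfl (fun a _ => row n c s hc a)]
    simp
  · refine le_trans (card_le_card_of_injOn Prod.fst (fun p hp => ?_) (fun p hp q hq hpq => ?_))
      (key n c 2 (s + b.1) (by norm_num) (alt n c 2 Nat.prime_two (by norm_num) h))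
    · simp only [sol, coe_filter, mem_filter, mem_univ, true_and, Set.mem_ofPred_eq] at hp ⊢
      rw [← hp.2, ← add_assoc]; exact hp.1
    · simp only [coe_filter, Set.mem_ofPred_eq] at hp hq
      exact Prod.ext hpq (hp.2.trans hq.2.symm)
  · refine le_trans (card_le_card_of_injOn Prod.fst (fun p hp => ?_) (fun p hp q hq hpq => ?_))
      (key n c 1 (s + k) (by norm_num) (Or.inl (Nat.coprime_one_left n)))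
    · simp only [sol, coe_filter, mem_filter, mem_univ, true_and, Set.mem_ofPred_eq] at hp ⊢
      rw [show 1 * p.1.1 + (s + k) = 2 * p.1.1 + s + p.2.1 by omega]; exact hp.1
    · simp only [coe_filter, Set.mem_ofPred_eq] at hp hq
      have h1 : p.1.1 = q.1.1 := congrArg Fin.val hpq
      exact Prod.ext hpq (Fin.ext (by omega))
  · refine le_trans (card_le_card_of_injOn Prod.fst (fun p hp => ?_) (fun p hp q hq hpq => ?_))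
      (key n c 3 (s + ((n : ℤ) - d).toNat) (by norm_num) (alt n c 3 Nat.prime_three (by norm_num) h))
    · simp only [sol, coe_filter, mem_filter, mem_univ, true_and, Set.mem_ofPred_eq] at hp ⊢
      have h1 := p.1.2
      rw [show 3 * p.1.1 + (s + ((n : ℤ) - d).toNat) = 2 * p.1.1 + s + p.2.1 + n by omega,
        Nat.add_mod_right]
      exact hp.1
    · simp only [coe_filter, Set.mem_ofPred_eq] at hp hq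
      have h1 : p.1.1 = q.1.1 := congrArg Fin.val hpq
      exact Prod.ext hpq (Fin.ext (by omega))

lemma union_ok {n c e : ℕ} {S T : Finset (Fin n × Fin n)} (hS : IsPlacement n c S)
    (hT : IsPlacement n e T) (h : Disjoint S T) : IsPlacement n (c + e) (S ∪ T) := by
  obtain ⟨a1, a2, a3, a4, a5⟩ := hS
  obtain ⟨b1, b2, b3, b4, b5⟩ := hT
  refine ⟨by rw [card_union_of_disjoint h, a1, b1, mul_add], fun a => ?_, fun a => ?_,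
    fun a => ?_, fun a => ?_⟩ <;> rw [filter_union] <;> refine (card_union_le _ _).trans ?_
  exacts [add_le_add (a2 a) (b2 a), add_le_add (a3 a) (b3 a), add_le_add (a4 a) (b4 a),
    add_le_add (a5 a) (b5 a)]

def qu (n : ℕ) : Finset (Fin n × Fin n) :=
  univ.filter (fun p => (2 * p.1.1 < n ∧ (2 * p.1.1 + p.2.1 = 4 ∨ 2 * p.1.1 + p.2.1 = n + 4)) ∨
    (n ≤ 2 * p.1.1 ∧ (2 * p.1.1 + p.2.1 = n + 1 ∨ 2 * p.1.1 + p.2.1 = 2 * n + 1)))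

lemma qu_ok (n : ℕ) (h8 : 8 ≤ n) (h2 : n % 2 = 0) (h3 : n % 3 ≠ 0) : IsPlacement n 1 (qu n) := by
  have hrow : ∀ a : Fin n, ((qu n).filter (fun p => p.1 = a)).card ≤ 1 := by
    intro a
    rw [card_le_one]
    rintro ⟨⟨i, hi⟩, ⟨j, hj⟩⟩ hp ⟨⟨i', hi'⟩, ⟨j', hj'⟩⟩ hq
    simp only [qu, mem_filter, mem_univ, true_and, Fin.ext_iff, Prod.mk.injEq] at hp hq ⊢
    omega
  refine ⟨?_, hrow, fun a => ?_, fun a => ?_, fun a => ?_⟩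
  · rw [card_eq_sum_card_fiberwise (s := qu n) (t := univ) (f := Prod.fst)
      (by intro x _; simp), sum_congr rfl (g := fun _ => 1) (fun a _ => le_antisymm (hrow a) ?_)]
    · simp
    · rw [one_le_card]
      have ha := a.2
      have : ∃ j, j < n ∧ ((2 * a.1 < n ∧ (2 * a.1 + j = 4 ∨ 2 * a.1 + j = n + 4)) ∨
          (n ≤ 2 * a.1 ∧ (2 * a.1 + j = n + 1 ∨ 2 * a.1 + j = 2 * n + 1))) := by
        by_cases c1 : 2 * a.1 ≤ 4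
        · exact ⟨4 - 2 * a.1, by omega⟩
        by_cases c2 : 2 * a.1 < n
        · exact ⟨n + 4 - 2 * a.1, by omega⟩
        by_cases c3 : 2 * a.1 ≤ n + 1
        · exact ⟨n + 1 - 2 * a.1, by omega⟩
        · exact ⟨2 * n + 1 - 2 * a.1, by omega⟩
      obtain ⟨j, hj, hj'⟩ := this
      exact ⟨(a, ⟨j, hj⟩), by simp only [qu, mem_filter, mem_univ, true_and, and_true]; exact hj'⟩
  all_goals
    rw [card_le_one]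
    rintro ⟨⟨i, hi⟩, ⟨j, hj⟩⟩ hp ⟨⟨i', hi'⟩, ⟨j', hj'⟩⟩ hq
    simp only [qu, mem_filter, mem_univ, true_and, Fin.ext_iff, Prod.mk.injEq] at hp hq ⊢
    omega

lemma modv (n x r k : ℕ) (hr : r < n) (h : x = r + n * k) : x % n = r := by
  rw [h, Nat.add_mul_mod_self_left, Nat.mod_eq_of_lt hr]

lemma disj1 (n c : ℕ) (h8 : 8 ≤ n) (hc : c ≤ n - 4) : Disjoint (qu n) (sol n c (n - 5)) := by
  rw [disjoint_left]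
  rintro ⟨⟨i, hi⟩, ⟨j, hj⟩⟩ hp hq
  simp only [qu, sol, mem_filter, mem_univ, true_and] at hp hq
  rcases hp with ⟨-, h | h⟩ | ⟨-, h | h⟩
  · rw [modv n _ (n - 1) 0 (by omega) (by omega)] at hq; omega
  · rw [modv n _ (n - 1) 1 (by omega) (by omega)] at hq; omega
  · rw [modv n _ (n - 4) 1 (by omega) (by omega)] at hq; omega
  · rw [modv n _ (n - 4) 2 (by omega) (by omega)] at hq; omega

lemma disj2 (n : ℕ) (h8 : 8 ≤ n) : Disjoint (qu n ∪ sol n (n - 4) (n - 5)) (sol n 2 (n - 2)) := by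
  rw [disjoint_left]
  rintro ⟨⟨i, hi⟩, ⟨j, hj⟩⟩ hp hq
  simp only [qu, sol, mem_union, mem_filter, mem_univ, true_and] at hp hq
  rcases hp with (⟨-, h | h⟩ | ⟨-, h | h⟩) | h
  · rw [modv n _ 2 1 (by omega) (by omega)] at hq; omega
  · rw [modv n _ 2 2 (by omega) (by omega)] at hq; omega
  · rw [modv n _ (n - 1) 1 (by omega) (by omega)] at hq; omega
  · rw [modv n _ (n - 1) 2 (by omega) (by omega)] at hq; omega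
  · rw [show 2 * i + (n - 2) + j = (2 * i + (n - 5) + j) + 3 by omega, ← Nat.mod_add_mod,
      Nat.mod_eq_of_lt (by omega)] at hq
    omega

lemma not3 (n c : ℕ) (hn : 4 ≤ n) (hc : c ≤ n) (h3 : ¬ 3 ∣ n) :
    ∃ S : Finset (Fin n × Fin n), IsPlacement n c S := by
  have hg : ∀ e, (n % 2 = 1 ∨ e % 2 = 0) → Nat.gcd n 6 ∣ e := by
    intro e he
    rw [Nat.gcd_comm, Nat.gcd_rec]
    have : n % 6 = 1 ∨ n % 6 = 5 ∨ ((n % 6 = 2 ∨ n % 6 = 4) ∧ e % 2 = 0) := by omega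
    rcases this with h | h | ⟨h | h, h'⟩ <;> rw [h] <;> norm_num <;> omega
  by_cases h : n % 2 = 1 ∨ c % 2 = 0
  · exact ⟨_, sol_ok n c 0 hc (hg c h)⟩
  by_cases h8 : 8 ≤ n
  · have hq := qu_ok n h8 (by omega) (by omega)
    by_cases hc4 : c - 1 ≤ n - 4
    · have := union_ok hq (sol_ok n (c - 1) (n - 5) (by omega) (hg _ (by omega))) (disj1 n _ h8 hc4)
      rw [show 1 + (c - 1) = c by omega] at this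
      exact ⟨_, this⟩
    · have := union_ok (union_ok hq (sol_ok n (n - 4) (n - 5) (by omega) (hg _ (by omega)))
        (disj1 n _ h8 le_rfl)) (sol_ok n 2 (n - 2) (by omega) (hg _ (by omega))) (disj2 n h8)
      rw [show 1 + (n - 4) + 2 = c by omega] at this
      exact ⟨_, this⟩
  · have h4 : n = 4 := by omega
    subst h4
    have : c = 1 ∨ c = 3 := by omega
    rcases this with rfl | rfl
    · refine ⟨{(0,1),(1,3),(2,0),(3,2)}, by decide, by decide, by decide, fun k => ?_, fun d => ?_⟩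
      · rw [card_le_one]; simp only [mem_filter, mem_insert, mem_singleton]
        rintro a ⟨rfl | rfl | rfl | rfl, h1⟩ b ⟨rfl | rfl | rfl | rfl, h2⟩ <;>
          first | rfl | (exfalso; simp at h1 h2; omega)
      · rw [card_le_one]; simp only [mem_filter, mem_insert, mem_singleton]
        rintro a ⟨rfl | rfl | rfl | rfl, h1⟩ b ⟨rfl | rfl | rfl | rfl, h2⟩ <;>
          first | rfl | (exfalso; simp at h1 h2; omega)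
    · refine ⟨univ \ {(0,0),(1,2),(2,3),(3,1)}, by decide, by decide, by decide, fun k => ?_,
        fun d => ?_⟩
      · by_cases hk : k < 7
        · interval_cases k <;> decide
        · rw [filter_false_of_mem (fun p _ => by have := p.1.2; have := p.2.2; omega)]; simp
      · by_cases hk : -4 < d ∧ d < 4
        · obtain ⟨h1, h2⟩ := hk
          interval_cases d <;> decide
        · rw [filter_false_of_mem (fun p _ => by have := p.1.2; have := p.2.2; omega)]; simp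

lemma cov {α : Type*} (S : Finset α) (c : ℕ) (G : ℕ → α → Prop) (h1 : ∀ p ∈ S, ∃ x < c, G x p)
    (h2 : ∀ x, ∀ p ∈ S, ∀ q ∈ S, G x p → G x q → p = q) : S.card ≤ c := by
  choose! f hf using h1
  refine le_trans (card_le_card_of_injOn (t := range c) f (fun p hp => ?_)
    (fun p hp q hq h => h2 (f p) p hp q hq (hf p hp).2 (h ▸ (hf q hq).2))) (card_range c).le
  simpa using (hf p hp).1

lemma low {α : Type*} [Nonempty α] (S : Finset α) (c : ℕ) (G : ℕ → α → Prop)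
    (h1 : ∀ x < c, ∃ p ∈ S, G x p) (h2 : ∀ x y p, G x p → G y p → x = y) : c ≤ S.card := by
  choose! f hf using h1
  refine le_trans (card_range c).ge (card_le_card_of_injOn f (fun x hx => ?_)
    (fun x hx y hy h => ?_))
  · exact (hf x (by simpa using hx)).1
  · exact h2 x y (f x) (hf x (by simpa using hx)).2 (h ▸ (hf y (by simpa using hy)).2)

noncomputable def bs (n : ℕ) (P : ℕ → ℕ → Prop) : Finset (Fin n × Fin n) :=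
  @Finset.filter _ (fun p => P p.1.1 p.2.1) (Classical.decPred _) univ

lemma mem_bs {n : ℕ} {P : ℕ → ℕ → Prop} {p : Fin n × Fin n} : p ∈ bs n P ↔ P p.1.1 p.2.1 := by
  simp only [bs, mem_filter, mem_univ, true_and]

lemma place (n c : ℕ) (P : ℕ → ℕ → Prop) (G1 G2 G3 G4 : ℕ → ℕ → ℕ → Prop)
    (c1 : ∀ I J, P I J → ∃ x < c, G1 x I J) (c2 : ∀ I J, P I J → ∃ x < c, G2 x I J)
    (c3 : ∀ I J, P I J → ∃ x < c, G3 x I J) (c4 : ∀ I J, P I J → ∃ x < c, G4 x I J)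
    (i1 : ∀ x I J K L, I < n → J < n → K < n → L < n → I = K → G1 x I J → G1 x K L → I = K ∧ J = L)
    (i2 : ∀ x I J K L, I < n → J < n → K < n → L < n → J = L → G2 x I J → G2 x K L → I = K ∧ J = L)
    (i3 : ∀ x I J K L, I < n → J < n → K < n → L < n → I + J = K + L → G3 x I J → G3 x K L →
      I = K ∧ J = L)
    (i4 : ∀ x I J K L, I < n → J < n → K < n → L < n → I + L = K + J → G4 x I J → G4 x K L →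
      I = K ∧ J = L)
    (f1 : ∀ x y I J, G1 x I J → G1 y I J → x = y)
    (e1 : ∀ I < n, ∀ x < c, ∃ J < n, P I J ∧ G1 x I J) : IsPlacement n c (bs n P) := by
  have hrow : ∀ a : Fin n, ((bs n P).filter (fun p => p.1 = a)).card ≤ c := by
    intro a
    refine cov _ c (fun x p => G1 x p.1.1 p.2.1) (fun p hp => c1 _ _ (mem_bs.1 (mem_filter.1 hp).1))
      (fun x p hp q hq h1 h2 => ?_)
    have := i1 x _ _ _ _ p.1.2 p.2.2 q.1.2 q.2.2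
      (congrArg Fin.val ((mem_filter.1 hp).2.trans (mem_filter.1 hq).2.symm)) h1 h2
    exact Prod.ext (Fin.ext this.1) (Fin.ext this.2)
  refine ⟨?_, hrow, fun a => ?_, fun a => ?_, fun a => ?_⟩
  · rw [card_eq_sum_card_fiberwise (s := bs n P) (t := univ) (f := Prod.fst)
      (by intro x _; simp), sum_congr rfl (g := fun _ => c) (fun a _ => le_antisymm (hrow a) ?_)]
    · simp
    · have : Nonempty (Fin n × Fin n) := ⟨(a, a)⟩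
      refine low _ c (fun x p => G1 x p.1.1 p.2.1) (fun x hx => ?_) (fun x y p => f1 x y _ _)
      obtain ⟨J, hJ, h1, h2⟩ := e1 a.1 a.2 x hx
      exact ⟨(a, ⟨J, hJ⟩), mem_filter.2 ⟨mem_bs.2 h1, rfl⟩, h2⟩
  · refine cov _ c (fun x p => G2 x p.1.1 p.2.1) (fun p hp => c2 _ _ (mem_bs.1 (mem_filter.1 hp).1))
      (fun x p hp q hq h1 h2 => ?_)
    have := i2 x _ _ _ _ p.1.2 p.2.2 q.1.2 q.2.2
      (congrArg Fin.val ((mem_filter.1 hp).2.trans (mem_filter.1 hq).2.symm)) h1 h2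
    exact Prod.ext (Fin.ext this.1) (Fin.ext this.2)
  · refine cov _ c (fun x p => G3 x p.1.1 p.2.1) (fun p hp => c3 _ _ (mem_bs.1 (mem_filter.1 hp).1))
      (fun x p hp q hq h1 h2 => ?_)
    have := i3 x _ _ _ _ p.1.2 p.2.2 q.1.2 q.2.2
      ((mem_filter.1 hp).2.trans (mem_filter.1 hq).2.symm) h1 h2
    exact Prod.ext (Fin.ext this.1) (Fin.ext this.2)
  · refine cov _ c (fun x p => G4 x p.1.1 p.2.1) (fun p hp => c4 _ _ (mem_bs.1 (mem_filter.1 hp).1))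
      (fun x p hp q hq h1 h2 => ?_)
    have := i4 x _ _ _ _ p.1.2 p.2.2 q.1.2 q.2.2
      (by have := (mem_filter.1 hp).2; have := (mem_filter.1 hq).2; omega) h1 h2
    exact Prod.ext (Fin.ext this.1) (Fin.ext this.2)

def Pq1 (n I J : ℕ) : Prop :=
  (2 * I < n ∧ 2 * I + J + 2 = 1 * n) ∨
  (n ≤ 2 * I ∧ 2 * I + J + 1 = 2 * n)

def Gq1row (n x I J : ℕ) : Prop :=
  (x = 0 ∧ ((2 * I < n ∧ 2 * I + J + 2 = 1 * n) ∨ (n ≤ 2 * I ∧ 2 * I + J + 1 = 2 * n)))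

lemma cq1row (n I J : ℕ) (h : Pq1 n I J) : ∃ x < 1, Gq1row n x I J := by
  rcases h with h | h
  exacts [⟨0, by norm_num, ⟨rfl, Or.inl (h)⟩⟩,
    ⟨0, by norm_num, ⟨rfl, Or.inr (h)⟩⟩]

lemma iq1row (n : ℕ) (hn : 6 ≤ n) (hm : n % 6 = 0) (x I J K L : ℕ) (hI : I < n) (hJ : J < n) (hK : K < n) (hL : L < n)
    (e : I = K) (a : Gq1row n x I J) (b : Gq1row n x K L) : I = K ∧ J = L := by
  rcases a with ⟨a0, a⟩ <;> rcases b with ⟨b0, b⟩ <;> omega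

lemma fq1 (n : ℕ) (hn : 6 ≤ n) (hm : n % 6 = 0) (x y I J : ℕ) (a : Gq1row n x I J) (b : Gq1row n y I J) : x = y := by
  rcases a with ⟨a0, a⟩ <;> rcases b with ⟨b0, b⟩ <;> omega

lemma eq1 (n : ℕ) (hn : 6 ≤ n) (hm : n % 6 = 0) (I : ℕ) (hI : I < n) (x : ℕ) (hx : x < 1) :
    ∃ J < n, Pq1 n I J ∧ Gq1row n x I J := by
  interval_cases x
  · have : ((1 * n - 2 - 2 * I) < n ∧ (2 * I < n ∧ 2 * I + (1 * n - 2 - 2 * I) + 2 = 1 * n)) ∨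
      ((2 * n - 1 - 2 * I) < n ∧ (n ≤ 2 * I ∧ 2 * I + (2 * n - 1 - 2 * I) + 1 = 2 * n)) := by omega
    rcases this with ⟨h0, h⟩ | ⟨h0, h⟩
    exacts [⟨_, h0, Or.inl (h), ⟨rfl, Or.inl (h)⟩⟩,
      ⟨_, h0, Or.inr (h), ⟨rfl, Or.inr (h)⟩⟩]

def Gq1col (n x I J : ℕ) : Prop :=
  (x = 0 ∧ ((2 * I < n ∧ 2 * I + J + 2 = 1 * n) ∨ (n ≤ 2 * I ∧ 2 * I + J + 1 = 2 * n)))

lemma cq1col (n I J : ℕ) (h : Pq1 n I J) : ∃ x < 1, Gq1col n x I J := by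
  rcases h with h | h
  exacts [⟨0, by norm_num, ⟨rfl, Or.inl (h)⟩⟩,
    ⟨0, by norm_num, ⟨rfl, Or.inr (h)⟩⟩]

lemma iq1col (n : ℕ) (hn : 6 ≤ n) (hm : n % 6 = 0) (x I J K L : ℕ) (hI : I < n) (hJ : J < n) (hK : K < n) (hL : L < n)
    (e : J = L) (a : Gq1col n x I J) (b : Gq1col n x K L) : I = K ∧ J = L := by
  rcases a with ⟨a0, a⟩ <;> rcases b with ⟨b0, b⟩ <;> omega

def Gq1anti (n x I J : ℕ) : Prop :=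
  (x = 0 ∧ ((2 * I < n ∧ 2 * I + J + 2 = 1 * n) ∨ (n ≤ 2 * I ∧ 2 * I + J + 1 = 2 * n)))

lemma cq1anti (n I J : ℕ) (h : Pq1 n I J) : ∃ x < 1, Gq1anti n x I J := by
  rcases h with h | h
  exacts [⟨0, by norm_num, ⟨rfl, Or.inl (h)⟩⟩,
    ⟨0, by norm_num, ⟨rfl, Or.inr (h)⟩⟩]

lemma iq1anti (n : ℕ) (hn : 6 ≤ n) (hm : n % 6 = 0) (x I J K L : ℕ) (hI : I < n) (hJ : J < n) (hK : K < n) (hL : L < n)
    (e : I + J = K + L) (a : Gq1anti n x I J) (b : Gq1anti n x K L) : I = K ∧ J = L := by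
  rcases a with ⟨a0, a⟩ <;> rcases b with ⟨b0, b⟩ <;> omega

def Gq1diag (n x I J : ℕ) : Prop :=
  (x = 0 ∧ ((2 * I < n ∧ 2 * I + J + 2 = 1 * n) ∨ (n ≤ 2 * I ∧ 2 * I + J + 1 = 2 * n)))

lemma cq1diag (n I J : ℕ) (h : Pq1 n I J) : ∃ x < 1, Gq1diag n x I J := by
  rcases h with h | h
  exacts [⟨0, by norm_num, ⟨rfl, Or.inl (h)⟩⟩,
    ⟨0, by norm_num, ⟨rfl, Or.inr (h)⟩⟩]

lemma iq1diag (n : ℕ) (hn : 6 ≤ n) (hm : n % 6 = 0) (x I J K L : ℕ) (hI : I < n) (hJ : J < n) (hK : K < n) (hL : L < n)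
    (e : I + L = K + J) (a : Gq1diag n x I J) (b : Gq1diag n x K L) : I = K ∧ J = L := by
  rcases a with ⟨a0, a⟩ <;> rcases b with ⟨b0, b⟩ <;> omega

lemma okq1 (n : ℕ) (hn : 6 ≤ n) (hm : n % 6 = 0) : IsPlacement n 1 (bs n (Pq1 n)) :=
  place n 1 _ _ _ _ _ (cq1row n) (cq1col n) (cq1anti n) (cq1diag n) (iq1row n hn hm) (iq1col n hn hm)
    (iq1anti n hn hm) (iq1diag n hn hm) (fq1 n hn hm) (eq1 n hn hm)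

lemma wq1 (n e : ℕ) (hn : 6 ≤ n) (he : e + 6 ≤ n) : Disjoint (bs n (Pq1 n)) (sol n e 0) := by
  rw [disjoint_left]
  intro p hp hq
  rw [mem_bs] at hp
  simp only [sol, mem_filter, mem_univ, true_and] at hq
  rcases hp with h | h
  · rw [modv n _ (n - 2) 0 (by omega) (by omega)] at hq; omega
  · rw [modv n _ (n - 1) 1 (by omega) (by omega)] at hq; omega

def Pdd (n I J : ℕ) : Prop :=
  (0 ≤ I ∧ 2 * I + J + 1 = 1 * n) ∨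
  (0 ≤ I ∧ 2 * I + J + 1 = 2 * n) ∨
  (0 ≤ I ∧ 2 * I + J + 2 = 1 * n) ∨
  (0 ≤ I ∧ 2 * I + J + 2 = 2 * n)

def Gddrow (n x I J : ℕ) : Prop :=
  (x = 0 ∧ ((0 ≤ I ∧ 2 * I + J + 1 = 1 * n) ∨ (0 ≤ I ∧ 2 * I + J + 1 = 2 * n))) ∨
  (x = 1 ∧ ((0 ≤ I ∧ 2 * I + J + 2 = 1 * n) ∨ (0 ≤ I ∧ 2 * I + J + 2 = 2 * n)))

lemma cddrow (n I J : ℕ) (h : Pdd n I J) : ∃ x < 2, Gddrow n x I J := by
  rcases h with h | h | h | h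
  exacts [⟨0, by norm_num, Or.inl (⟨rfl, Or.inl (h)⟩)⟩,
    ⟨0, by norm_num, Or.inl (⟨rfl, Or.inr (h)⟩)⟩,
    ⟨1, by norm_num, Or.inr (⟨rfl, Or.inl (h)⟩)⟩,
    ⟨1, by norm_num, Or.inr (⟨rfl, Or.inr (h)⟩)⟩]

lemma iddrow (n : ℕ) (hn : 6 ≤ n) (hm : n % 3 = 0) (x I J K L : ℕ) (hI : I < n) (hJ : J < n) (hK : K < n) (hL : L < n)
    (e : I = K) (a : Gddrow n x I J) (b : Gddrow n x K L) : I = K ∧ J = L := by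
  rcases a with ⟨a0, a⟩ | ⟨a0, a⟩ <;> rcases b with ⟨b0, b⟩ | ⟨b0, b⟩ <;> omega

lemma fdd (n : ℕ) (hn : 6 ≤ n) (hm : n % 3 = 0) (x y I J : ℕ) (a : Gddrow n x I J) (b : Gddrow n y I J) : x = y := by
  rcases a with ⟨a0, a⟩ | ⟨a0, a⟩ <;> rcases b with ⟨b0, b⟩ | ⟨b0, b⟩ <;> omega

lemma edd (n : ℕ) (hn : 6 ≤ n) (hm : n % 3 = 0) (I : ℕ) (hI : I < n) (x : ℕ) (hx : x < 2) :
    ∃ J < n, Pdd n I J ∧ Gddrow n x I J := by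
  interval_cases x
  · have : ((1 * n - 1 - 2 * I) < n ∧ (0 ≤ I ∧ 2 * I + (1 * n - 1 - 2 * I) + 1 = 1 * n)) ∨
      ((2 * n - 1 - 2 * I) < n ∧ (0 ≤ I ∧ 2 * I + (2 * n - 1 - 2 * I) + 1 = 2 * n)) := by omega
    rcases this with ⟨h0, h⟩ | ⟨h0, h⟩
    exacts [⟨_, h0, Or.inl (h), Or.inl (⟨rfl, Or.inl (h)⟩)⟩,
      ⟨_, h0, Or.inr (Or.inl (h)), Or.inl (⟨rfl, Or.inr (h)⟩)⟩]
  · have : ((1 * n - 2 - 2 * I) < n ∧ (0 ≤ I ∧ 2 * I + (1 * n - 2 - 2 * I) + 2 = 1 * n)) ∨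
      ((2 * n - 2 - 2 * I) < n ∧ (0 ≤ I ∧ 2 * I + (2 * n - 2 - 2 * I) + 2 = 2 * n)) := by omega
    rcases this with ⟨h0, h⟩ | ⟨h0, h⟩
    exacts [⟨_, h0, Or.inr (Or.inr (Or.inl (h))), Or.inr (⟨rfl, Or.inl (h)⟩)⟩,
      ⟨_, h0, Or.inr (Or.inr (Or.inr (h))), Or.inr (⟨rfl, Or.inr (h)⟩)⟩]

def Gddcol (n x I J : ℕ) : Prop :=
  (x = 0 ∧ ((0 ≤ I ∧ 2 * I + J + 1 = 1 * n) ∨ (0 ≤ I ∧ 2 * I + J + 2 = 1 * n))) ∨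
  (x = 1 ∧ ((0 ≤ I ∧ 2 * I + J + 1 = 2 * n) ∨ (0 ≤ I ∧ 2 * I + J + 2 = 2 * n)))

lemma cddcol (n I J : ℕ) (h : Pdd n I J) : ∃ x < 2, Gddcol n x I J := by
  rcases h with h | h | h | h
  exacts [⟨0, by norm_num, Or.inl (⟨rfl, Or.inl (h)⟩)⟩,
    ⟨1, by norm_num, Or.inr (⟨rfl, Or.inl (h)⟩)⟩,
    ⟨0, by norm_num, Or.inl (⟨rfl, Or.inr (h)⟩)⟩,
    ⟨1, by norm_num, Or.inr (⟨rfl, Or.inr (h)⟩)⟩]

lemma iddcol (n : ℕ) (hn : 6 ≤ n) (hm : n % 3 = 0) (x I J K L : ℕ) (hI : I < n) (hJ : J < n) (hK : K < n) (hL : L < n)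
    (e : J = L) (a : Gddcol n x I J) (b : Gddcol n x K L) : I = K ∧ J = L := by
  rcases a with ⟨a0, a⟩ | ⟨a0, a⟩ <;> rcases b with ⟨b0, b⟩ | ⟨b0, b⟩ <;> omega

def Gddanti (n x I J : ℕ) : Prop :=
  (x = 0 ∧ ((0 ≤ I ∧ 2 * I + J + 1 = 1 * n) ∨ (0 ≤ I ∧ 2 * I + J + 1 = 2 * n))) ∨
  (x = 1 ∧ ((0 ≤ I ∧ 2 * I + J + 2 = 1 * n) ∨ (0 ≤ I ∧ 2 * I + J + 2 = 2 * n)))

lemma cddanti (n I J : ℕ) (h : Pdd n I J) : ∃ x < 2, Gddanti n x I J := by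
  rcases h with h | h | h | h
  exacts [⟨0, by norm_num, Or.inl (⟨rfl, Or.inl (h)⟩)⟩,
    ⟨0, by norm_num, Or.inl (⟨rfl, Or.inr (h)⟩)⟩,
    ⟨1, by norm_num, Or.inr (⟨rfl, Or.inl (h)⟩)⟩,
    ⟨1, by norm_num, Or.inr (⟨rfl, Or.inr (h)⟩)⟩]

lemma iddanti (n : ℕ) (hn : 6 ≤ n) (hm : n % 3 = 0) (x I J K L : ℕ) (hI : I < n) (hJ : J < n) (hK : K < n) (hL : L < n)
    (e : I + J = K + L) (a : Gddanti n x I J) (b : Gddanti n x K L) : I = K ∧ J = L := by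
  rcases a with ⟨a0, a⟩ | ⟨a0, a⟩ <;> rcases b with ⟨b0, b⟩ | ⟨b0, b⟩ <;> omega

def Gdddiag (n x I J : ℕ) : Prop :=
  (x = 0 ∧ ((0 ≤ I ∧ 2 * I + J + 1 = 1 * n) ∨ (0 ≤ I ∧ 2 * I + J + 2 = 1 * n))) ∨
  (x = 1 ∧ ((0 ≤ I ∧ 2 * I + J + 1 = 2 * n) ∨ (0 ≤ I ∧ 2 * I + J + 2 = 2 * n)))

lemma cdddiag (n I J : ℕ) (h : Pdd n I J) : ∃ x < 2, Gdddiag n x I J := by
  rcases h with h | h | h | h
  exacts [⟨0, by norm_num, Or.inl (⟨rfl, Or.inl (h)⟩)⟩,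
    ⟨1, by norm_num, Or.inr (⟨rfl, Or.inl (h)⟩)⟩,
    ⟨0, by norm_num, Or.inl (⟨rfl, Or.inr (h)⟩)⟩,
    ⟨1, by norm_num, Or.inr (⟨rfl, Or.inr (h)⟩)⟩]

lemma idddiag (n : ℕ) (hn : 6 ≤ n) (hm : n % 3 = 0) (x I J K L : ℕ) (hI : I < n) (hJ : J < n) (hK : K < n) (hL : L < n)
    (e : I + L = K + J) (a : Gdddiag n x I J) (b : Gdddiag n x K L) : I = K ∧ J = L := by
  rcases a with ⟨a0, a⟩ | ⟨a0, a⟩ <;> rcases b with ⟨b0, b⟩ | ⟨b0, b⟩ <;> omega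

lemma okdd (n : ℕ) (hn : 6 ≤ n) (hm : n % 3 = 0) : IsPlacement n 2 (bs n (Pdd n)) :=
  place n 2 _ _ _ _ _ (cddrow n) (cddcol n) (cddanti n) (cdddiag n) (iddrow n hn hm) (iddcol n hn hm)
    (iddanti n hn hm) (idddiag n hn hm) (fdd n hn hm) (edd n hn hm)

lemma wdd (n e : ℕ) (hn : 6 ≤ n) (he : e + 3 ≤ n) : Disjoint (bs n (Pdd n)) (sol n e 0) := by
  rw [disjoint_left]
  intro p hp hq
  rw [mem_bs] at hp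
  simp only [sol, mem_filter, mem_univ, true_and] at hq
  rcases hp with h | h | h | h
  · rw [modv n _ (n - 1) 0 (by omega) (by omega)] at hq; omega
  · rw [modv n _ (n - 1) 1 (by omega) (by omega)] at hq; omega
  · rw [modv n _ (n - 2) 0 (by omega) (by omega)] at hq; omega
  · rw [modv n _ (n - 2) 1 (by omega) (by omega)] at hq; omega

def Pt3 (n I J : ℕ) : Prop :=
  (2 * I < n ∧ 2 * I + J + 3 = 1 * n) ∨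
  (2 * I < n ∧ 2 * I + J + 3 = 2 * n) ∨
  (2 * I < n ∧ 2 * I + J + 4 = 1 * n) ∨
  (2 * I < n ∧ 2 * I + J + 4 = 2 * n) ∨
  (2 * I < n ∧ 2 * I + J + 5 = 1 * n) ∨
  (2 * I < n ∧ 2 * I + J + 5 = 2 * n) ∨
  (n ≤ 2 * I ∧ 2 * I + J + 4 = 2 * n) ∨
  (n ≤ 2 * I ∧ 2 * I + J + 4 = 3 * n) ∨
  (n ≤ 2 * I ∧ 2 * I + J + 5 = 2 * n) ∨
  (n ≤ 2 * I ∧ 2 * I + J + 5 = 3 * n) ∨
  (n ≤ 2 * I ∧ 2 * I + J + 6 = 2 * n) ∨
  (n ≤ 2 * I ∧ 2 * I + J + 6 = 3 * n)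

def Gt3row (n x I J : ℕ) : Prop :=
  (x = 0 ∧ ((2 * I < n ∧ 2 * I + J + 5 = 1 * n) ∨ (2 * I < n ∧ 2 * I + J + 5 = 2 * n) ∨ (n ≤ 2 * I ∧ 2 * I + J + 4 = 2 * n) ∨ (n ≤ 2 * I ∧ 2 * I + J + 4 = 3 * n))) ∨
  (x = 1 ∧ ((2 * I < n ∧ 2 * I + J + 3 = 1 * n) ∨ (2 * I < n ∧ 2 * I + J + 3 = 2 * n) ∨ (n ≤ 2 * I ∧ 2 * I + J + 5 = 2 * n) ∨ (n ≤ 2 * I ∧ 2 * I + J + 5 = 3 * n))) ∨
  (x = 2 ∧ ((2 * I < n ∧ 2 * I + J + 4 = 1 * n) ∨ (2 * I < n ∧ 2 * I + J + 4 = 2 * n) ∨ (n ≤ 2 * I ∧ 2 * I + J + 6 = 2 * n) ∨ (n ≤ 2 * I ∧ 2 * I + J + 6 = 3 * n)))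

lemma ct3row (n I J : ℕ) (h : Pt3 n I J) : ∃ x < 3, Gt3row n x I J := by
  rcases h with h | h | h | h | h | h | h | h | h | h | h | h
  exacts [⟨1, by norm_num, Or.inr (Or.inl (⟨rfl, Or.inl (h)⟩))⟩,
    ⟨1, by norm_num, Or.inr (Or.inl (⟨rfl, Or.inr (Or.inl (h))⟩))⟩,
    ⟨2, by norm_num, Or.inr (Or.inr (⟨rfl, Or.inl (h)⟩))⟩,
    ⟨2, by norm_num, Or.inr (Or.inr (⟨rfl, Or.inr (Or.inl (h))⟩))⟩,
    ⟨0, by norm_num, Or.inl (⟨rfl, Or.inl (h)⟩)⟩,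
    ⟨0, by norm_num, Or.inl (⟨rfl, Or.inr (Or.inl (h))⟩)⟩,
    ⟨0, by norm_num, Or.inl (⟨rfl, Or.inr (Or.inr (Or.inl (h)))⟩)⟩,
    ⟨0, by norm_num, Or.inl (⟨rfl, Or.inr (Or.inr (Or.inr (h)))⟩)⟩,
    ⟨1, by norm_num, Or.inr (Or.inl (⟨rfl, Or.inr (Or.inr (Or.inl (h)))⟩))⟩,
    ⟨1, by norm_num, Or.inr (Or.inl (⟨rfl, Or.inr (Or.inr (Or.inr (h)))⟩))⟩,
    ⟨2, by norm_num, Or.inr (Or.inr (⟨rfl, Or.inr (Or.inr (Or.inl (h)))⟩))⟩,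
    ⟨2, by norm_num, Or.inr (Or.inr (⟨rfl, Or.inr (Or.inr (Or.inr (h)))⟩))⟩]

lemma it3row (n : ℕ) (hn : 6 ≤ n) (hm : n % 6 = 0) (x I J K L : ℕ) (hI : I < n) (hJ : J < n) (hK : K < n) (hL : L < n)
    (e : I = K) (a : Gt3row n x I J) (b : Gt3row n x K L) : I = K ∧ J = L := by
  rcases a with ⟨a0, a⟩ | ⟨a0, a⟩ | ⟨a0, a⟩ <;> rcases b with ⟨b0, b⟩ | ⟨b0, b⟩ | ⟨b0, b⟩ <;> omega

lemma ft3 (n : ℕ) (hn : 6 ≤ n) (hm : n % 6 = 0) (x y I J : ℕ) (a : Gt3row n x I J) (b : Gt3row n y I J) : x = y := by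
  rcases a with ⟨a0, a⟩ | ⟨a0, a⟩ | ⟨a0, a⟩ <;> rcases b with ⟨b0, b⟩ | ⟨b0, b⟩ | ⟨b0, b⟩ <;> omega

lemma et3 (n : ℕ) (hn : 6 ≤ n) (hm : n % 6 = 0) (I : ℕ) (hI : I < n) (x : ℕ) (hx : x < 3) :
    ∃ J < n, Pt3 n I J ∧ Gt3row n x I J := by
  interval_cases x
  · have : ((1 * n - 5 - 2 * I) < n ∧ (2 * I < n ∧ 2 * I + (1 * n - 5 - 2 * I) + 5 = 1 * n)) ∨
      ((2 * n - 5 - 2 * I) < n ∧ (2 * I < n ∧ 2 * I + (2 * n - 5 - 2 * I) + 5 = 2 * n)) ∨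
      ((2 * n - 4 - 2 * I) < n ∧ (n ≤ 2 * I ∧ 2 * I + (2 * n - 4 - 2 * I) + 4 = 2 * n)) ∨
      ((3 * n - 4 - 2 * I) < n ∧ (n ≤ 2 * I ∧ 2 * I + (3 * n - 4 - 2 * I) + 4 = 3 * n)) := by omega
    rcases this with ⟨h0, h⟩ | ⟨h0, h⟩ | ⟨h0, h⟩ | ⟨h0, h⟩
    exacts [⟨_, h0, Or.inr (Or.inr (Or.inr (Or.inr (Or.inl (h))))), Or.inl (⟨rfl, Or.inl (h)⟩)⟩,
      ⟨_, h0, Or.inr (Or.inr (Or.inr (Or.inr (Or.inr (Or.inl (h)))))), Or.inl (⟨rfl, Or.inr (Or.inl (h))⟩)⟩,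
      ⟨_, h0, Or.inr (Or.inr (Or.inr (Or.inr (Or.inr (Or.inr (Or.inl (h))))))), Or.inl (⟨rfl, Or.inr (Or.inr (Or.inl (h)))⟩)⟩,
      ⟨_, h0, Or.inr (Or.inr (Or.inr (Or.inr (Or.inr (Or.inr (Or.inr (Or.inl (h)))))))), Or.inl (⟨rfl, Or.inr (Or.inr (Or.inr (h)))⟩)⟩]
  · have : ((1 * n - 3 - 2 * I) < n ∧ (2 * I < n ∧ 2 * I + (1 * n - 3 - 2 * I) + 3 = 1 * n)) ∨
      ((2 * n - 3 - 2 * I) < n ∧ (2 * I < n ∧ 2 * I + (2 * n - 3 - 2 * I) + 3 = 2 * n)) ∨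
      ((2 * n - 5 - 2 * I) < n ∧ (n ≤ 2 * I ∧ 2 * I + (2 * n - 5 - 2 * I) + 5 = 2 * n)) ∨
      ((3 * n - 5 - 2 * I) < n ∧ (n ≤ 2 * I ∧ 2 * I + (3 * n - 5 - 2 * I) + 5 = 3 * n)) := by omega
    rcases this with ⟨h0, h⟩ | ⟨h0, h⟩ | ⟨h0, h⟩ | ⟨h0, h⟩
    exacts [⟨_, h0, Or.inl (h), Or.inr (Or.inl (⟨rfl, Or.inl (h)⟩))⟩,
      ⟨_, h0, Or.inr (Or.inl (h)), Or.inr (Or.inl (⟨rfl, Or.inr (Or.inl (h))⟩))⟩,
      ⟨_, h0, Or.inr (Or.inr (Or.inr (Or.inr (Or.inr (Or.inr (Or.inr (Or.inr (Or.inl (h))))))))), Or.inr (Or.inl (⟨rfl, Or.inr (Or.inr (Or.inl (h)))⟩))⟩,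
      ⟨_, h0, Or.inr (Or.inr (Or.inr (Or.inr (Or.inr (Or.inr (Or.inr (Or.inr (Or.inr (Or.inl (h)))))))))), Or.inr (Or.inl (⟨rfl, Or.inr (Or.inr (Or.inr (h)))⟩))⟩]
  · have : ((1 * n - 4 - 2 * I) < n ∧ (2 * I < n ∧ 2 * I + (1 * n - 4 - 2 * I) + 4 = 1 * n)) ∨
      ((2 * n - 4 - 2 * I) < n ∧ (2 * I < n ∧ 2 * I + (2 * n - 4 - 2 * I) + 4 = 2 * n)) ∨
      ((2 * n - 6 - 2 * I) < n ∧ (n ≤ 2 * I ∧ 2 * I + (2 * n - 6 - 2 * I) + 6 = 2 * n)) ∨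
      ((3 * n - 6 - 2 * I) < n ∧ (n ≤ 2 * I ∧ 2 * I + (3 * n - 6 - 2 * I) + 6 = 3 * n)) := by omega
    rcases this with ⟨h0, h⟩ | ⟨h0, h⟩ | ⟨h0, h⟩ | ⟨h0, h⟩
    exacts [⟨_, h0, Or.inr (Or.inr (Or.inl (h))), Or.inr (Or.inr (⟨rfl, Or.inl (h)⟩))⟩,
      ⟨_, h0, Or.inr (Or.inr (Or.inr (Or.inl (h)))), Or.inr (Or.inr (⟨rfl, Or.inr (Or.inl (h))⟩))⟩,
      ⟨_, h0, Or.inr (Or.inr (Or.inr (Or.inr (Or.inr (Or.inr (Or.inr (Or.inr (Or.inr (Or.inr (Or.inl (h))))))))))), Or.inr (Or.inr (⟨rfl, Or.inr (Or.inr (Or.inl (h)))⟩))⟩,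
      ⟨_, h0, Or.inr (Or.inr (Or.inr (Or.inr (Or.inr (Or.inr (Or.inr (Or.inr (Or.inr (Or.inr (Or.inr (h))))))))))), Or.inr (Or.inr (⟨rfl, Or.inr (Or.inr (Or.inr (h)))⟩))⟩]

def Gt3col (n x I J : ℕ) : Prop :=
  (x = 0 ∧ ((2 * I < n ∧ 2 * I + J + 3 = 1 * n) ∨ (2 * I < n ∧ 2 * I + J + 3 = 2 * n) ∨ (n ≤ 2 * I ∧ 2 * I + J + 6 = 2 * n) ∨ (n ≤ 2 * I ∧ 2 * I + J + 6 = 3 * n))) ∨
  (x = 1 ∧ ((2 * I < n ∧ 2 * I + J + 4 = 1 * n) ∨ (2 * I < n ∧ 2 * I + J + 4 = 2 * n) ∨ (2 * I < n ∧ 2 * I + J + 5 = 1 * n) ∨ (2 * I < n ∧ 2 * I + J + 5 = 2 * n))) ∨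
  (x = 2 ∧ ((n ≤ 2 * I ∧ 2 * I + J + 4 = 2 * n) ∨ (n ≤ 2 * I ∧ 2 * I + J + 4 = 3 * n) ∨ (n ≤ 2 * I ∧ 2 * I + J + 5 = 2 * n) ∨ (n ≤ 2 * I ∧ 2 * I + J + 5 = 3 * n)))

lemma ct3col (n I J : ℕ) (h : Pt3 n I J) : ∃ x < 3, Gt3col n x I J := by
  rcases h with h | h | h | h | h | h | h | h | h | h | h | h
  exacts [⟨0, by norm_num, Or.inl (⟨rfl, Or.inl (h)⟩)⟩,
    ⟨0, by norm_num, Or.inl (⟨rfl, Or.inr (Or.inl (h))⟩)⟩,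
    ⟨1, by norm_num, Or.inr (Or.inl (⟨rfl, Or.inl (h)⟩))⟩,
    ⟨1, by norm_num, Or.inr (Or.inl (⟨rfl, Or.inr (Or.inl (h))⟩))⟩,
    ⟨1, by norm_num, Or.inr (Or.inl (⟨rfl, Or.inr (Or.inr (Or.inl (h)))⟩))⟩,
    ⟨1, by norm_num, Or.inr (Or.inl (⟨rfl, Or.inr (Or.inr (Or.inr (h)))⟩))⟩,
    ⟨2, by norm_num, Or.inr (Or.inr (⟨rfl, Or.inl (h)⟩))⟩,
    ⟨2, by norm_num, Or.inr (Or.inr (⟨rfl, Or.inr (Or.inl (h))⟩))⟩,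
    ⟨2, by norm_num, Or.inr (Or.inr (⟨rfl, Or.inr (Or.inr (Or.inl (h)))⟩))⟩,
    ⟨2, by norm_num, Or.inr (Or.inr (⟨rfl, Or.inr (Or.inr (Or.inr (h)))⟩))⟩,
    ⟨0, by norm_num, Or.inl (⟨rfl, Or.inr (Or.inr (Or.inl (h)))⟩)⟩,
    ⟨0, by norm_num, Or.inl (⟨rfl, Or.inr (Or.inr (Or.inr (h)))⟩)⟩]

lemma it3col (n : ℕ) (hn : 6 ≤ n) (hm : n % 6 = 0) (x I J K L : ℕ) (hI : I < n) (hJ : J < n) (hK : K < n) (hL : L < n)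
    (e : J = L) (a : Gt3col n x I J) (b : Gt3col n x K L) : I = K ∧ J = L := by
  rcases a with ⟨a0, a⟩ | ⟨a0, a⟩ | ⟨a0, a⟩ <;> rcases b with ⟨b0, b⟩ | ⟨b0, b⟩ | ⟨b0, b⟩ <;> omega

def Gt3anti (n x I J : ℕ) : Prop :=
  (x = 0 ∧ ((2 * I < n ∧ 2 * I + J + 3 = 1 * n) ∨ (2 * I < n ∧ 2 * I + J + 3 = 2 * n) ∨ (2 * I < n ∧ 2 * I + J + 4 = 2 * n) ∨ (n ≤ 2 * I ∧ 2 * I + J + 4 = 2 * n) ∨ (n ≤ 2 * I ∧ 2 * I + J + 5 = 3 * n))) ∨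
  (x = 1 ∧ ((2 * I < n ∧ 2 * I + J + 4 = 1 * n) ∨ (2 * I < n ∧ 2 * I + J + 5 = 2 * n) ∨ (n ≤ 2 * I ∧ 2 * I + J + 4 = 3 * n) ∨ (n ≤ 2 * I ∧ 2 * I + J + 6 = 2 * n) ∨ (n ≤ 2 * I ∧ 2 * I + J + 6 = 3 * n))) ∨
  (x = 2 ∧ ((2 * I < n ∧ 2 * I + J + 5 = 1 * n) ∨ (n ≤ 2 * I ∧ 2 * I + J + 5 = 2 * n)))

lemma ct3anti (n I J : ℕ) (h : Pt3 n I J) : ∃ x < 3, Gt3anti n x I J := by
  rcases h with h | h | h | h | h | h | h | h | h | h | h | h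
  exacts [⟨0, by norm_num, Or.inl (⟨rfl, Or.inl (h)⟩)⟩,
    ⟨0, by norm_num, Or.inl (⟨rfl, Or.inr (Or.inl (h))⟩)⟩,
    ⟨1, by norm_num, Or.inr (Or.inl (⟨rfl, Or.inl (h)⟩))⟩,
    ⟨0, by norm_num, Or.inl (⟨rfl, Or.inr (Or.inr (Or.inl (h)))⟩)⟩,
    ⟨2, by norm_num, Or.inr (Or.inr (⟨rfl, Or.inl (h)⟩))⟩,
    ⟨1, by norm_num, Or.inr (Or.inl (⟨rfl, Or.inr (Or.inl (h))⟩))⟩,
    ⟨0, by norm_num, Or.inl (⟨rfl, Or.inr (Or.inr (Or.inr (Or.inl (h))))⟩)⟩,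
    ⟨1, by norm_num, Or.inr (Or.inl (⟨rfl, Or.inr (Or.inr (Or.inl (h)))⟩))⟩,
    ⟨2, by norm_num, Or.inr (Or.inr (⟨rfl, Or.inr (h)⟩))⟩,
    ⟨0, by norm_num, Or.inl (⟨rfl, Or.inr (Or.inr (Or.inr (Or.inr (h))))⟩)⟩,
    ⟨1, by norm_num, Or.inr (Or.inl (⟨rfl, Or.inr (Or.inr (Or.inr (Or.inl (h))))⟩))⟩,
    ⟨1, by norm_num, Or.inr (Or.inl (⟨rfl, Or.inr (Or.inr (Or.inr (Or.inr (h))))⟩))⟩]

lemma it3anti (n : ℕ) (hn : 6 ≤ n) (hm : n % 6 = 0) (x I J K L : ℕ) (hI : I < n) (hJ : J < n) (hK : K < n) (hL : L < n)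
    (e : I + J = K + L) (a : Gt3anti n x I J) (b : Gt3anti n x K L) : I = K ∧ J = L := by
  rcases a with ⟨a0, a⟩ | ⟨a0, a⟩ | ⟨a0, a⟩ <;> rcases b with ⟨b0, b⟩ | ⟨b0, b⟩ | ⟨b0, b⟩ <;> omega

def Gt3diag (n x I J : ℕ) : Prop :=
  (x = 0 ∧ ((2 * I < n ∧ 2 * I + J + 3 = 1 * n) ∨ (2 * I < n ∧ 2 * I + J + 4 = 1 * n) ∨ (2 * I < n ∧ 2 * I + J + 5 = 1 * n))) ∨
  (x = 1 ∧ ((2 * I < n ∧ 2 * I + J + 3 = 2 * n) ∨ (2 * I < n ∧ 2 * I + J + 4 = 2 * n) ∨ (n ≤ 2 * I ∧ 2 * I + J + 4 = 2 * n) ∨ (n ≤ 2 * I ∧ 2 * I + J + 5 = 3 * n) ∨ (n ≤ 2 * I ∧ 2 * I + J + 6 = 2 * n))) ∨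
  (x = 2 ∧ ((2 * I < n ∧ 2 * I + J + 5 = 2 * n) ∨ (n ≤ 2 * I ∧ 2 * I + J + 4 = 3 * n) ∨ (n ≤ 2 * I ∧ 2 * I + J + 5 = 2 * n) ∨ (n ≤ 2 * I ∧ 2 * I + J + 6 = 3 * n)))

lemma ct3diag (n I J : ℕ) (h : Pt3 n I J) : ∃ x < 3, Gt3diag n x I J := by
  rcases h with h | h | h | h | h | h | h | h | h | h | h | h
  exacts [⟨0, by norm_num, Or.inl (⟨rfl, Or.inl (h)⟩)⟩,
    ⟨1, by norm_num, Or.inr (Or.inl (⟨rfl, Or.inl (h)⟩))⟩,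
    ⟨0, by norm_num, Or.inl (⟨rfl, Or.inr (Or.inl (h))⟩)⟩,
    ⟨1, by norm_num, Or.inr (Or.inl (⟨rfl, Or.inr (Or.inl (h))⟩))⟩,
    ⟨0, by norm_num, Or.inl (⟨rfl, Or.inr (Or.inr (h))⟩)⟩,
    ⟨2, by norm_num, Or.inr (Or.inr (⟨rfl, Or.inl (h)⟩))⟩,
    ⟨1, by norm_num, Or.inr (Or.inl (⟨rfl, Or.inr (Or.inr (Or.inl (h)))⟩))⟩,
    ⟨2, by norm_num, Or.inr (Or.inr (⟨rfl, Or.inr (Or.inl (h))⟩))⟩,
    ⟨2, by norm_num, Or.inr (Or.inr (⟨rfl, Or.inr (Or.inr (Or.inl (h)))⟩))⟩,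
    ⟨1, by norm_num, Or.inr (Or.inl (⟨rfl, Or.inr (Or.inr (Or.inr (Or.inl (h))))⟩))⟩,
    ⟨1, by norm_num, Or.inr (Or.inl (⟨rfl, Or.inr (Or.inr (Or.inr (Or.inr (h))))⟩))⟩,
    ⟨2, by norm_num, Or.inr (Or.inr (⟨rfl, Or.inr (Or.inr (Or.inr (h)))⟩))⟩]

lemma it3diag (n : ℕ) (hn : 6 ≤ n) (hm : n % 6 = 0) (x I J K L : ℕ) (hI : I < n) (hJ : J < n) (hK : K < n) (hL : L < n)
    (e : I + L = K + J) (a : Gt3diag n x I J) (b : Gt3diag n x K L) : I = K ∧ J = L := by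
  rcases a with ⟨a0, a⟩ | ⟨a0, a⟩ | ⟨a0, a⟩ <;> rcases b with ⟨b0, b⟩ | ⟨b0, b⟩ | ⟨b0, b⟩ <;> omega

lemma okt3 (n : ℕ) (hn : 6 ≤ n) (hm : n % 6 = 0) : IsPlacement n 3 (bs n (Pt3 n)) :=
  place n 3 _ _ _ _ _ (ct3row n) (ct3col n) (ct3anti n) (ct3diag n) (it3row n hn hm) (it3col n hn hm)
    (it3anti n hn hm) (it3diag n hn hm) (ft3 n hn hm) (et3 n hn hm)

lemma wt3 (n e : ℕ) (hn : 6 ≤ n) (he : e + 6 ≤ n) : Disjoint (bs n (Pt3 n)) (sol n e 0) := by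
  rw [disjoint_left]
  intro p hp hq
  rw [mem_bs] at hp
  simp only [sol, mem_filter, mem_univ, true_and] at hq
  rcases hp with h | h | h | h | h | h | h | h | h | h | h | h
  · rw [modv n _ (n - 3) 0 (by omega) (by omega)] at hq; omega
  · rw [modv n _ (n - 3) 1 (by omega) (by omega)] at hq; omega
  · rw [modv n _ (n - 4) 0 (by omega) (by omega)] at hq; omega
  · rw [modv n _ (n - 4) 1 (by omega) (by omega)] at hq; omega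
  · rw [modv n _ (n - 5) 0 (by omega) (by omega)] at hq; omega
  · rw [modv n _ (n - 5) 1 (by omega) (by omega)] at hq; omega
  · rw [modv n _ (n - 4) 1 (by omega) (by omega)] at hq; omega
  · rw [modv n _ (n - 4) 2 (by omega) (by omega)] at hq; omega
  · rw [modv n _ (n - 5) 1 (by omega) (by omega)] at hq; omega
  · rw [modv n _ (n - 5) 2 (by omega) (by omega)] at hq; omega
  · rw [modv n _ (n - 6) 1 (by omega) (by omega)] at hq; omega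
  · rw [modv n _ (n - 6) 2 (by omega) (by omega)] at hq; omega

def Pf4 (n I J : ℕ) : Prop :=
  (2 * I + 1 < n ∧ 2 * I + J + 2 = 1 * n) ∨
  (2 * I + 1 < n ∧ 2 * I + J + 3 = 1 * n) ∨
  (2 * I + 1 < n ∧ 2 * I + J + 4 = 1 * n) ∨
  (2 * I + 1 < n ∧ 2 * I + J + 4 = 2 * n) ∨
  (2 * I + 1 < n ∧ 2 * I + J + 6 = 1 * n) ∨
  (2 * I + 1 < n ∧ 2 * I + J + 6 = 2 * n) ∨
  (2 * I + 1 = n ∧ 2 * I + J + 2 = 2 * n) ∨
  (2 * I + 1 = n ∧ 2 * I + J + 3 = 2 * n) ∨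
  (2 * I + 1 = n ∧ 2 * I + J + 5 = 2 * n) ∨
  (2 * I + 1 = n ∧ 2 * I + J + 6 = 2 * n) ∨
  (n < 2 * I + 1 ∧ 2 * I + J + 2 = 2 * n) ∨
  (n < 2 * I + 1 ∧ 2 * I + J + 4 = 2 * n) ∨
  (n < 2 * I + 1 ∧ 2 * I + J + 4 = 3 * n) ∨
  (n < 2 * I + 1 ∧ 2 * I + J + 5 = 2 * n) ∨
  (n < 2 * I + 1 ∧ 2 * I + J + 5 = 3 * n) ∨
  (n < 2 * I + 1 ∧ 2 * I + J + 6 = 2 * n) ∨
  (n < 2 * I + 1 ∧ 2 * I + J + 6 = 3 * n)

def Gf4row (n x I J : ℕ) : Prop :=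
  (x = 0 ∧ ((2 * I + 1 < n ∧ 2 * I + J + 2 = 1 * n) ∨ (2 * I + 1 = n ∧ 2 * I + J + 2 = 2 * n) ∨ (n < 2 * I + 1 ∧ 2 * I + J + 2 = 2 * n))) ∨
  (x = 1 ∧ ((2 * I + 1 < n ∧ 2 * I + J + 3 = 1 * n) ∨ (2 * I + 1 = n ∧ 2 * I + J + 3 = 2 * n) ∨ (n < 2 * I + 1 ∧ 2 * I + J + 4 = 2 * n) ∨ (n < 2 * I + 1 ∧ 2 * I + J + 4 = 3 * n))) ∨
  (x = 2 ∧ ((2 * I + 1 < n ∧ 2 * I + J + 4 = 1 * n) ∨ (2 * I + 1 < n ∧ 2 * I + J + 4 = 2 * n) ∨ (2 * I + 1 = n ∧ 2 * I + J + 5 = 2 * n) ∨ (n < 2 * I + 1 ∧ 2 * I + J + 5 = 3 * n) ∨ (n < 2 * I + 1 ∧ 2 * I + J + 6 = 2 * n))) ∨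
  (x = 3 ∧ ((2 * I + 1 < n ∧ 2 * I + J + 6 = 1 * n) ∨ (2 * I + 1 < n ∧ 2 * I + J + 6 = 2 * n) ∨ (2 * I + 1 = n ∧ 2 * I + J + 6 = 2 * n) ∨ (n < 2 * I + 1 ∧ 2 * I + J + 5 = 2 * n) ∨ (n < 2 * I + 1 ∧ 2 * I + J + 6 = 3 * n)))

lemma cf4row (n I J : ℕ) (h : Pf4 n I J) : ∃ x < 4, Gf4row n x I J := by
  rcases h with h | h | h | h | h | h | h | h | h | h | h | h | h | h | h | h | h
  exacts [⟨0, by norm_num, Or.inl (⟨rfl, Or.inl (h)⟩)⟩,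
    ⟨1, by norm_num, Or.inr (Or.inl (⟨rfl, Or.inl (h)⟩))⟩,
    ⟨2, by norm_num, Or.inr (Or.inr (Or.inl (⟨rfl, Or.inl (h)⟩)))⟩,
    ⟨2, by norm_num, Or.inr (Or.inr (Or.inl (⟨rfl, Or.inr (Or.inl (h))⟩)))⟩,
    ⟨3, by norm_num, Or.inr (Or.inr (Or.inr (⟨rfl, Or.inl (h)⟩)))⟩,
    ⟨3, by norm_num, Or.inr (Or.inr (Or.inr (⟨rfl, Or.inr (Or.inl (h))⟩)))⟩,
    ⟨0, by norm_num, Or.inl (⟨rfl, Or.inr (Or.inl (h))⟩)⟩,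
    ⟨1, by norm_num, Or.inr (Or.inl (⟨rfl, Or.inr (Or.inl (h))⟩))⟩,
    ⟨2, by norm_num, Or.inr (Or.inr (Or.inl (⟨rfl, Or.inr (Or.inr (Or.inl (h)))⟩)))⟩,
    ⟨3, by norm_num, Or.inr (Or.inr (Or.inr (⟨rfl, Or.inr (Or.inr (Or.inl (h)))⟩)))⟩,
    ⟨0, by norm_num, Or.inl (⟨rfl, Or.inr (Or.inr (h))⟩)⟩,
    ⟨1, by norm_num, Or.inr (Or.inl (⟨rfl, Or.inr (Or.inr (Or.inl (h)))⟩))⟩,
    ⟨1, by norm_num, Or.inr (Or.inl (⟨rfl, Or.inr (Or.inr (Or.inr (h)))⟩))⟩,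
    ⟨3, by norm_num, Or.inr (Or.inr (Or.inr (⟨rfl, Or.inr (Or.inr (Or.inr (Or.inl (h))))⟩)))⟩,
    ⟨2, by norm_num, Or.inr (Or.inr (Or.inl (⟨rfl, Or.inr (Or.inr (Or.inr (Or.inl (h))))⟩)))⟩,
    ⟨2, by norm_num, Or.inr (Or.inr (Or.inl (⟨rfl, Or.inr (Or.inr (Or.inr (Or.inr (h))))⟩)))⟩,
    ⟨3, by norm_num, Or.inr (Or.inr (Or.inr (⟨rfl, Or.inr (Or.inr (Or.inr (Or.inr (h))))⟩)))⟩]

lemma if4row (n : ℕ) (hn : 6 ≤ n) (hm : n % 6 = 3) (x I J K L : ℕ) (hI : I < n) (hJ : J < n) (hK : K < n) (hL : L < n)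
    (e : I = K) (a : Gf4row n x I J) (b : Gf4row n x K L) : I = K ∧ J = L := by
  rcases a with ⟨a0, a⟩ | ⟨a0, a⟩ | ⟨a0, a⟩ | ⟨a0, a⟩ <;> rcases b with ⟨b0, b⟩ | ⟨b0, b⟩ | ⟨b0, b⟩ | ⟨b0, b⟩ <;> omega

lemma ff4 (n : ℕ) (hn : 6 ≤ n) (hm : n % 6 = 3) (x y I J : ℕ) (a : Gf4row n x I J) (b : Gf4row n y I J) : x = y := by
  rcases a with ⟨a0, a⟩ | ⟨a0, a⟩ | ⟨a0, a⟩ | ⟨a0, a⟩ <;> rcases b with ⟨b0, b⟩ | ⟨b0, b⟩ | ⟨b0, b⟩ | ⟨b0, b⟩ <;> omega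

lemma ef4 (n : ℕ) (hn : 6 ≤ n) (hm : n % 6 = 3) (I : ℕ) (hI : I < n) (x : ℕ) (hx : x < 4) :
    ∃ J < n, Pf4 n I J ∧ Gf4row n x I J := by
  interval_cases x
  · have : ((1 * n - 2 - 2 * I) < n ∧ (2 * I + 1 < n ∧ 2 * I + (1 * n - 2 - 2 * I) + 2 = 1 * n)) ∨
      ((2 * n - 2 - 2 * I) < n ∧ (2 * I + 1 = n ∧ 2 * I + (2 * n - 2 - 2 * I) + 2 = 2 * n)) ∨
      ((2 * n - 2 - 2 * I) < n ∧ (n < 2 * I + 1 ∧ 2 * I + (2 * n - 2 - 2 * I) + 2 = 2 * n)) := by omega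
    rcases this with ⟨h0, h⟩ | ⟨h0, h⟩ | ⟨h0, h⟩
    exacts [⟨_, h0, Or.inl (h), Or.inl (⟨rfl, Or.inl (h)⟩)⟩,
      ⟨_, h0, Or.inr (Or.inr (Or.inr (Or.inr (Or.inr (Or.inr (Or.inl (h))))))), Or.inl (⟨rfl, Or.inr (Or.inl (h))⟩)⟩,
      ⟨_, h0, Or.inr (Or.inr (Or.inr (Or.inr (Or.inr (Or.inr (Or.inr (Or.inr (Or.inr (Or.inr (Or.inl (h))))))))))), Or.inl (⟨rfl, Or.inr (Or.inr (h))⟩)⟩]
  · have : ((1 * n - 3 - 2 * I) < n ∧ (2 * I + 1 < n ∧ 2 * I + (1 * n - 3 - 2 * I) + 3 = 1 * n)) ∨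
      ((2 * n - 3 - 2 * I) < n ∧ (2 * I + 1 = n ∧ 2 * I + (2 * n - 3 - 2 * I) + 3 = 2 * n)) ∨
      ((2 * n - 4 - 2 * I) < n ∧ (n < 2 * I + 1 ∧ 2 * I + (2 * n - 4 - 2 * I) + 4 = 2 * n)) ∨
      ((3 * n - 4 - 2 * I) < n ∧ (n < 2 * I + 1 ∧ 2 * I + (3 * n - 4 - 2 * I) + 4 = 3 * n)) := by omega
    rcases this with ⟨h0, h⟩ | ⟨h0, h⟩ | ⟨h0, h⟩ | ⟨h0, h⟩
    exacts [⟨_, h0, Or.inr (Or.inl (h)), Or.inr (Or.inl (⟨rfl, Or.inl (h)⟩))⟩,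
      ⟨_, h0, Or.inr (Or.inr (Or.inr (Or.inr (Or.inr (Or.inr (Or.inr (Or.inl (h)))))))), Or.inr (Or.inl (⟨rfl, Or.inr (Or.inl (h))⟩))⟩,
      ⟨_, h0, Or.inr (Or.inr (Or.inr (Or.inr (Or.inr (Or.inr (Or.inr (Or.inr (Or.inr (Or.inr (Or.inr (Or.inl (h)))))))))))), Or.inr (Or.inl (⟨rfl, Or.inr (Or.inr (Or.inl (h)))⟩))⟩,
      ⟨_, h0, Or.inr (Or.inr (Or.inr (Or.inr (Or.inr (Or.inr (Or.inr (Or.inr (Or.inr (Or.inr (Or.inr (Or.inr (Or.inl (h))))))))))))), Or.inr (Or.inl (⟨rfl, Or.inr (Or.inr (Or.inr (h)))⟩))⟩]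
  · have : ((1 * n - 4 - 2 * I) < n ∧ (2 * I + 1 < n ∧ 2 * I + (1 * n - 4 - 2 * I) + 4 = 1 * n)) ∨
      ((2 * n - 4 - 2 * I) < n ∧ (2 * I + 1 < n ∧ 2 * I + (2 * n - 4 - 2 * I) + 4 = 2 * n)) ∨
      ((2 * n - 5 - 2 * I) < n ∧ (2 * I + 1 = n ∧ 2 * I + (2 * n - 5 - 2 * I) + 5 = 2 * n)) ∨
      ((3 * n - 5 - 2 * I) < n ∧ (n < 2 * I + 1 ∧ 2 * I + (3 * n - 5 - 2 * I) + 5 = 3 * n)) ∨
      ((2 * n - 6 - 2 * I) < n ∧ (n < 2 * I + 1 ∧ 2 * I + (2 * n - 6 - 2 * I) + 6 = 2 * n)) := by omega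
    rcases this with ⟨h0, h⟩ | ⟨h0, h⟩ | ⟨h0, h⟩ | ⟨h0, h⟩ | ⟨h0, h⟩
    exacts [⟨_, h0, Or.inr (Or.inr (Or.inl (h))), Or.inr (Or.inr (Or.inl (⟨rfl, Or.inl (h)⟩)))⟩,
      ⟨_, h0, Or.inr (Or.inr (Or.inr (Or.inl (h)))), Or.inr (Or.inr (Or.inl (⟨rfl, Or.inr (Or.inl (h))⟩)))⟩,
      ⟨_, h0, Or.inr (Or.inr (Or.inr (Or.inr (Or.inr (Or.inr (Or.inr (Or.inr (Or.inl (h))))))))), Or.inr (Or.inr (Or.inl (⟨rfl, Or.inr (Or.inr (Or.inl (h)))⟩)))⟩,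
      ⟨_, h0, Or.inr (Or.inr (Or.inr (Or.inr (Or.inr (Or.inr (Or.inr (Or.inr (Or.inr (Or.inr (Or.inr (Or.inr (Or.inr (Or.inr (Or.inl (h))))))))))))))), Or.inr (Or.inr (Or.inl (⟨rfl, Or.inr (Or.inr (Or.inr (Or.inl (h))))⟩)))⟩,
      ⟨_, h0, Or.inr (Or.inr (Or.inr (Or.inr (Or.inr (Or.inr (Or.inr (Or.inr (Or.inr (Or.inr (Or.inr (Or.inr (Or.inr (Or.inr (Or.inr (Or.inl (h)))))))))))))))), Or.inr (Or.inr (Or.inl (⟨rfl, Or.inr (Or.inr (Or.inr (Or.inr (h))))⟩)))⟩]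
  · have : ((1 * n - 6 - 2 * I) < n ∧ (2 * I + 1 < n ∧ 2 * I + (1 * n - 6 - 2 * I) + 6 = 1 * n)) ∨
      ((2 * n - 6 - 2 * I) < n ∧ (2 * I + 1 < n ∧ 2 * I + (2 * n - 6 - 2 * I) + 6 = 2 * n)) ∨
      ((2 * n - 6 - 2 * I) < n ∧ (2 * I + 1 = n ∧ 2 * I + (2 * n - 6 - 2 * I) + 6 = 2 * n)) ∨
      ((2 * n - 5 - 2 * I) < n ∧ (n < 2 * I + 1 ∧ 2 * I + (2 * n - 5 - 2 * I) + 5 = 2 * n)) ∨
      ((3 * n - 6 - 2 * I) < n ∧ (n < 2 * I + 1 ∧ 2 * I + (3 * n - 6 - 2 * I) + 6 = 3 * n)) := by omega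
    rcases this with ⟨h0, h⟩ | ⟨h0, h⟩ | ⟨h0, h⟩ | ⟨h0, h⟩ | ⟨h0, h⟩
    exacts [⟨_, h0, Or.inr (Or.inr (Or.inr (Or.inr (Or.inl (h))))), Or.inr (Or.inr (Or.inr (⟨rfl, Or.inl (h)⟩)))⟩,
      ⟨_, h0, Or.inr (Or.inr (Or.inr (Or.inr (Or.inr (Or.inl (h)))))), Or.inr (Or.inr (Or.inr (⟨rfl, Or.inr (Or.inl (h))⟩)))⟩,
      ⟨_, h0, Or.inr (Or.inr (Or.inr (Or.inr (Or.inr (Or.inr (Or.inr (Or.inr (Or.inr (Or.inl (h)))))))))), Or.inr (Or.inr (Or.inr (⟨rfl, Or.inr (Or.inr (Or.inl (h)))⟩)))⟩,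
      ⟨_, h0, Or.inr (Or.inr (Or.inr (Or.inr (Or.inr (Or.inr (Or.inr (Or.inr (Or.inr (Or.inr (Or.inr (Or.inr (Or.inr (Or.inl (h)))))))))))))), Or.inr (Or.inr (Or.inr (⟨rfl, Or.inr (Or.inr (Or.inr (Or.inl (h))))⟩)))⟩,
      ⟨_, h0, Or.inr (Or.inr (Or.inr (Or.inr (Or.inr (Or.inr (Or.inr (Or.inr (Or.inr (Or.inr (Or.inr (Or.inr (Or.inr (Or.inr (Or.inr (Or.inr (h)))))))))))))))), Or.inr (Or.inr (Or.inr (⟨rfl, Or.inr (Or.inr (Or.inr (Or.inr (h))))⟩)))⟩]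

def Gf4col (n x I J : ℕ) : Prop :=
  (x = 0 ∧ ((2 * I + 1 < n ∧ 2 * I + J + 2 = 1 * n) ∨ (2 * I + 1 < n ∧ 2 * I + J + 3 = 1 * n) ∨ (2 * I + 1 < n ∧ 2 * I + J + 4 = 2 * n))) ∨
  (x = 1 ∧ ((2 * I + 1 < n ∧ 2 * I + J + 6 = 1 * n) ∨ (2 * I + 1 = n ∧ 2 * I + J + 2 = 2 * n) ∨ (n < 2 * I + 1 ∧ 2 * I + J + 2 = 2 * n) ∨ (n < 2 * I + 1 ∧ 2 * I + J + 6 = 3 * n))) ∨
  (x = 2 ∧ ((2 * I + 1 < n ∧ 2 * I + J + 4 = 1 * n) ∨ (2 * I + 1 = n ∧ 2 * I + J + 3 = 2 * n) ∨ (n < 2 * I + 1 ∧ 2 * I + J + 4 = 2 * n) ∨ (n < 2 * I + 1 ∧ 2 * I + J + 5 = 3 * n))) ∨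
  (x = 3 ∧ ((2 * I + 1 < n ∧ 2 * I + J + 6 = 2 * n) ∨ (2 * I + 1 = n ∧ 2 * I + J + 5 = 2 * n) ∨ (2 * I + 1 = n ∧ 2 * I + J + 6 = 2 * n) ∨ (n < 2 * I + 1 ∧ 2 * I + J + 4 = 3 * n) ∨ (n < 2 * I + 1 ∧ 2 * I + J + 5 = 2 * n) ∨ (n < 2 * I + 1 ∧ 2 * I + J + 6 = 2 * n)))

lemma cf4col (n I J : ℕ) (h : Pf4 n I J) : ∃ x < 4, Gf4col n x I J := by
  rcases h with h | h | h | h | h | h | h | h | h | h | h | h | h | h | h | h | h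
  exacts [⟨0, by norm_num, Or.inl (⟨rfl, Or.inl (h)⟩)⟩,
    ⟨0, by norm_num, Or.inl (⟨rfl, Or.inr (Or.inl (h))⟩)⟩,
    ⟨2, by norm_num, Or.inr (Or.inr (Or.inl (⟨rfl, Or.inl (h)⟩)))⟩,
    ⟨0, by norm_num, Or.inl (⟨rfl, Or.inr (Or.inr (h))⟩)⟩,
    ⟨1, by norm_num, Or.inr (Or.inl (⟨rfl, Or.inl (h)⟩))⟩,
    ⟨3, by norm_num, Or.inr (Or.inr (Or.inr (⟨rfl, Or.inl (h)⟩)))⟩,
    ⟨1, by norm_num, Or.inr (Or.inl (⟨rfl, Or.inr (Or.inl (h))⟩))⟩,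
    ⟨2, by norm_num, Or.inr (Or.inr (Or.inl (⟨rfl, Or.inr (Or.inl (h))⟩)))⟩,
    ⟨3, by norm_num, Or.inr (Or.inr (Or.inr (⟨rfl, Or.inr (Or.inl (h))⟩)))⟩,
    ⟨3, by norm_num, Or.inr (Or.inr (Or.inr (⟨rfl, Or.inr (Or.inr (Or.inl (h)))⟩)))⟩,
    ⟨1, by norm_num, Or.inr (Or.inl (⟨rfl, Or.inr (Or.inr (Or.inl (h)))⟩))⟩,
    ⟨2, by norm_num, Or.inr (Or.inr (Or.inl (⟨rfl, Or.inr (Or.inr (Or.inl (h)))⟩)))⟩,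
    ⟨3, by norm_num, Or.inr (Or.inr (Or.inr (⟨rfl, Or.inr (Or.inr (Or.inr (Or.inl (h))))⟩)))⟩,
    ⟨3, by norm_num, Or.inr (Or.inr (Or.inr (⟨rfl, Or.inr (Or.inr (Or.inr (Or.inr (Or.inl (h)))))⟩)))⟩,
    ⟨2, by norm_num, Or.inr (Or.inr (Or.inl (⟨rfl, Or.inr (Or.inr (Or.inr (h)))⟩)))⟩,
    ⟨3, by norm_num, Or.inr (Or.inr (Or.inr (⟨rfl, Or.inr (Or.inr (Or.inr (Or.inr (Or.inr (h)))))⟩)))⟩,
    ⟨1, by norm_num, Or.inr (Or.inl (⟨rfl, Or.inr (Or.inr (Or.inr (h)))⟩))⟩]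

lemma if4col (n : ℕ) (hn : 6 ≤ n) (hm : n % 6 = 3) (x I J K L : ℕ) (hI : I < n) (hJ : J < n) (hK : K < n) (hL : L < n)
    (e : J = L) (a : Gf4col n x I J) (b : Gf4col n x K L) : I = K ∧ J = L := by
  rcases a with ⟨a0, a⟩ | ⟨a0, a⟩ | ⟨a0, a⟩ | ⟨a0, a⟩ <;> rcases b with ⟨b0, b⟩ | ⟨b0, b⟩ | ⟨b0, b⟩ | ⟨b0, b⟩ <;> omega

def Gf4anti (n x I J : ℕ) : Prop :=
  (x = 0 ∧ ((2 * I + 1 < n ∧ 2 * I + J + 2 = 1 * n) ∨ (2 * I + 1 = n ∧ 2 * I + J + 2 = 2 * n) ∨ (n < 2 * I + 1 ∧ 2 * I + J + 2 = 2 * n) ∨ (n < 2 * I + 1 ∧ 2 * I + J + 5 = 3 * n))) ∨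
  (x = 1 ∧ ((2 * I + 1 < n ∧ 2 * I + J + 3 = 1 * n) ∨ (2 * I + 1 < n ∧ 2 * I + J + 4 = 2 * n) ∨ (n < 2 * I + 1 ∧ 2 * I + J + 4 = 2 * n) ∨ (n < 2 * I + 1 ∧ 2 * I + J + 4 = 3 * n) ∨ (n < 2 * I + 1 ∧ 2 * I + J + 6 = 3 * n))) ∨
  (x = 2 ∧ ((2 * I + 1 < n ∧ 2 * I + J + 4 = 1 * n) ∨ (2 * I + 1 < n ∧ 2 * I + J + 6 = 2 * n) ∨ (2 * I + 1 = n ∧ 2 * I + J + 3 = 2 * n) ∨ (2 * I + 1 = n ∧ 2 * I + J + 6 = 2 * n) ∨ (n < 2 * I + 1 ∧ 2 * I + J + 6 = 2 * n))) ∨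
  (x = 3 ∧ ((2 * I + 1 < n ∧ 2 * I + J + 6 = 1 * n) ∨ (2 * I + 1 = n ∧ 2 * I + J + 5 = 2 * n) ∨ (n < 2 * I + 1 ∧ 2 * I + J + 5 = 2 * n)))

lemma cf4anti (n I J : ℕ) (h : Pf4 n I J) : ∃ x < 4, Gf4anti n x I J := by
  rcases h with h | h | h | h | h | h | h | h | h | h | h | h | h | h | h | h | h
  exacts [⟨0, by norm_num, Or.inl (⟨rfl, Or.inl (h)⟩)⟩,
    ⟨1, by norm_num, Or.inr (Or.inl (⟨rfl, Or.inl (h)⟩))⟩,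
    ⟨2, by norm_num, Or.inr (Or.inr (Or.inl (⟨rfl, Or.inl (h)⟩)))⟩,
    ⟨1, by norm_num, Or.inr (Or.inl (⟨rfl, Or.inr (Or.inl (h))⟩))⟩,
    ⟨3, by norm_num, Or.inr (Or.inr (Or.inr (⟨rfl, Or.inl (h)⟩)))⟩,
    ⟨2, by norm_num, Or.inr (Or.inr (Or.inl (⟨rfl, Or.inr (Or.inl (h))⟩)))⟩,
    ⟨0, by norm_num, Or.inl (⟨rfl, Or.inr (Or.inl (h))⟩)⟩,
    ⟨2, by norm_num, Or.inr (Or.inr (Or.inl (⟨rfl, Or.inr (Or.inr (Or.inl (h)))⟩)))⟩,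
    ⟨3, by norm_num, Or.inr (Or.inr (Or.inr (⟨rfl, Or.inr (Or.inl (h))⟩)))⟩,
    ⟨2, by norm_num, Or.inr (Or.inr (Or.inl (⟨rfl, Or.inr (Or.inr (Or.inr (Or.inl (h))))⟩)))⟩,
    ⟨0, by norm_num, Or.inl (⟨rfl, Or.inr (Or.inr (Or.inl (h)))⟩)⟩,
    ⟨1, by norm_num, Or.inr (Or.inl (⟨rfl, Or.inr (Or.inr (Or.inl (h)))⟩))⟩,
    ⟨1, by norm_num, Or.inr (Or.inl (⟨rfl, Or.inr (Or.inr (Or.inr (Or.inl (h))))⟩))⟩,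
    ⟨3, by norm_num, Or.inr (Or.inr (Or.inr (⟨rfl, Or.inr (Or.inr (h))⟩)))⟩,
    ⟨0, by norm_num, Or.inl (⟨rfl, Or.inr (Or.inr (Or.inr (h)))⟩)⟩,
    ⟨2, by norm_num, Or.inr (Or.inr (Or.inl (⟨rfl, Or.inr (Or.inr (Or.inr (Or.inr (h))))⟩)))⟩,
    ⟨1, by norm_num, Or.inr (Or.inl (⟨rfl, Or.inr (Or.inr (Or.inr (Or.inr (h))))⟩))⟩]

lemma if4anti (n : ℕ) (hn : 6 ≤ n) (hm : n % 6 = 3) (x I J K L : ℕ) (hI : I < n) (hJ : J < n) (hK : K < n) (hL : L < n)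
    (e : I + J = K + L) (a : Gf4anti n x I J) (b : Gf4anti n x K L) : I = K ∧ J = L := by
  rcases a with ⟨a0, a⟩ | ⟨a0, a⟩ | ⟨a0, a⟩ | ⟨a0, a⟩ <;> rcases b with ⟨b0, b⟩ | ⟨b0, b⟩ | ⟨b0, b⟩ | ⟨b0, b⟩ <;> omega

def Gf4diag (n x I J : ℕ) : Prop :=
  (x = 0 ∧ ((2 * I + 1 < n ∧ 2 * I + J + 2 = 1 * n) ∨ (2 * I + 1 < n ∧ 2 * I + J + 3 = 1 * n) ∨ (2 * I + 1 < n ∧ 2 * I + J + 4 = 1 * n))) ∨
  (x = 1 ∧ ((2 * I + 1 < n ∧ 2 * I + J + 4 = 2 * n) ∨ (2 * I + 1 < n ∧ 2 * I + J + 6 = 1 * n) ∨ (2 * I + 1 = n ∧ 2 * I + J + 2 = 2 * n) ∨ (n < 2 * I + 1 ∧ 2 * I + J + 4 = 2 * n) ∨ (n < 2 * I + 1 ∧ 2 * I + J + 5 = 3 * n))) ∨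
  (x = 2 ∧ ((2 * I + 1 < n ∧ 2 * I + J + 6 = 2 * n) ∨ (n < 2 * I + 1 ∧ 2 * I + J + 2 = 2 * n) ∨ (n < 2 * I + 1 ∧ 2 * I + J + 4 = 3 * n) ∨ (n < 2 * I + 1 ∧ 2 * I + J + 6 = 3 * n))) ∨
  (x = 3 ∧ ((2 * I + 1 = n ∧ 2 * I + J + 3 = 2 * n) ∨ (2 * I + 1 = n ∧ 2 * I + J + 5 = 2 * n) ∨ (2 * I + 1 = n ∧ 2 * I + J + 6 = 2 * n) ∨ (n < 2 * I + 1 ∧ 2 * I + J + 5 = 2 * n) ∨ (n < 2 * I + 1 ∧ 2 * I + J + 6 = 2 * n)))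

lemma cf4diag (n I J : ℕ) (h : Pf4 n I J) : ∃ x < 4, Gf4diag n x I J := by
  rcases h with h | h | h | h | h | h | h | h | h | h | h | h | h | h | h | h | h
  exacts [⟨0, by norm_num, Or.inl (⟨rfl, Or.inl (h)⟩)⟩,
    ⟨0, by norm_num, Or.inl (⟨rfl, Or.inr (Or.inl (h))⟩)⟩,
    ⟨0, by norm_num, Or.inl (⟨rfl, Or.inr (Or.inr (h))⟩)⟩,
    ⟨1, by norm_num, Or.inr (Or.inl (⟨rfl, Or.inl (h)⟩))⟩,
    ⟨1, by norm_num, Or.inr (Or.inl (⟨rfl, Or.inr (Or.inl (h))⟩))⟩,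
    ⟨2, by norm_num, Or.inr (Or.inr (Or.inl (⟨rfl, Or.inl (h)⟩)))⟩,
    ⟨1, by norm_num, Or.inr (Or.inl (⟨rfl, Or.inr (Or.inr (Or.inl (h)))⟩))⟩,
    ⟨3, by norm_num, Or.inr (Or.inr (Or.inr (⟨rfl, Or.inl (h)⟩)))⟩,
    ⟨3, by norm_num, Or.inr (Or.inr (Or.inr (⟨rfl, Or.inr (Or.inl (h))⟩)))⟩,
    ⟨3, by norm_num, Or.inr (Or.inr (Or.inr (⟨rfl, Or.inr (Or.inr (Or.inl (h)))⟩)))⟩,
    ⟨2, by norm_num, Or.inr (Or.inr (Or.inl (⟨rfl, Or.inr (Or.inl (h))⟩)))⟩,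
    ⟨1, by norm_num, Or.inr (Or.inl (⟨rfl, Or.inr (Or.inr (Or.inr (Or.inl (h))))⟩))⟩,
    ⟨2, by norm_num, Or.inr (Or.inr (Or.inl (⟨rfl, Or.inr (Or.inr (Or.inl (h)))⟩)))⟩,
    ⟨3, by norm_num, Or.inr (Or.inr (Or.inr (⟨rfl, Or.inr (Or.inr (Or.inr (Or.inl (h))))⟩)))⟩,
    ⟨1, by norm_num, Or.inr (Or.inl (⟨rfl, Or.inr (Or.inr (Or.inr (Or.inr (h))))⟩))⟩,
    ⟨3, by norm_num, Or.inr (Or.inr (Or.inr (⟨rfl, Or.inr (Or.inr (Or.inr (Or.inr (h))))⟩)))⟩,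
    ⟨2, by norm_num, Or.inr (Or.inr (Or.inl (⟨rfl, Or.inr (Or.inr (Or.inr (h)))⟩)))⟩]

lemma if4diag (n : ℕ) (hn : 6 ≤ n) (hm : n % 6 = 3) (x I J K L : ℕ) (hI : I < n) (hJ : J < n) (hK : K < n) (hL : L < n)
    (e : I + L = K + J) (a : Gf4diag n x I J) (b : Gf4diag n x K L) : I = K ∧ J = L := by
  rcases a with ⟨a0, a⟩ | ⟨a0, a⟩ | ⟨a0, a⟩ | ⟨a0, a⟩ <;> rcases b with ⟨b0, b⟩ | ⟨b0, b⟩ | ⟨b0, b⟩ | ⟨b0, b⟩ <;> omega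

lemma okf4 (n : ℕ) (hn : 6 ≤ n) (hm : n % 6 = 3) : IsPlacement n 4 (bs n (Pf4 n)) :=
  place n 4 _ _ _ _ _ (cf4row n) (cf4col n) (cf4anti n) (cf4diag n) (if4row n hn hm) (if4col n hn hm)
    (if4anti n hn hm) (if4diag n hn hm) (ff4 n hn hm) (ef4 n hn hm)

lemma wf4 (n e : ℕ) (hn : 6 ≤ n) (he : e + 6 ≤ n) : Disjoint (bs n (Pf4 n)) (sol n e 0) := by
  rw [disjoint_left]
  intro p hp hq
  rw [mem_bs] at hp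
  simp only [sol, mem_filter, mem_univ, true_and] at hq
  rcases hp with h | h | h | h | h | h | h | h | h | h | h | h | h | h | h | h | h
  · rw [modv n _ (n - 2) 0 (by omega) (by omega)] at hq; omega
  · rw [modv n _ (n - 3) 0 (by omega) (by omega)] at hq; omega
  · rw [modv n _ (n - 4) 0 (by omega) (by omega)] at hq; omega
  · rw [modv n _ (n - 4) 1 (by omega) (by omega)] at hq; omega
  · rw [modv n _ (n - 6) 0 (by omega) (by omega)] at hq; omega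
  · rw [modv n _ (n - 6) 1 (by omega) (by omega)] at hq; omega
  · rw [modv n _ (n - 2) 1 (by omega) (by omega)] at hq; omega
  · rw [modv n _ (n - 3) 1 (by omega) (by omega)] at hq; omega
  · rw [modv n _ (n - 5) 1 (by omega) (by omega)] at hq; omega
  · rw [modv n _ (n - 6) 1 (by omega) (by omega)] at hq; omega
  · rw [modv n _ (n - 2) 1 (by omega) (by omega)] at hq; omega
  · rw [modv n _ (n - 4) 1 (by omega) (by omega)] at hq; omega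
  · rw [modv n _ (n - 4) 2 (by omega) (by omega)] at hq; omega
  · rw [modv n _ (n - 5) 1 (by omega) (by omega)] at hq; omega
  · rw [modv n _ (n - 5) 2 (by omega) (by omega)] at hq; omega
  · rw [modv n _ (n - 6) 1 (by omega) (by omega)] at hq; omega
  · rw [modv n _ (n - 6) 2 (by omega) (by omega)] at hq; omega

def Pqo (n I J : ℕ) : Prop :=
  (2 * I + 1 < n ∧ 4 * I + 2 * J + 1 = 1 * n ∧ J + 1 < n) ∨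
  (2 * I + 1 < n ∧ 4 * I + 2 * J + 3 = 3 * n ∧ J + 1 < n) ∨
  ((n ≤ 2 * I + 1 ∧ I + 1 < n) ∧ 4 * I + 2 * J + 9 = 3 * n ∧ J + 1 < n) ∨
  ((n ≤ 2 * I + 1 ∧ I + 1 < n) ∧ 4 * I + 2 * J + 11 = 5 * n ∧ J + 1 < n) ∨
  (I + 1 = n ∧ J + 1 = n)

def Gqorow (n x I J : ℕ) : Prop :=
  (x = 0 ∧ ((2 * I + 1 < n ∧ 4 * I + 2 * J + 1 = 1 * n ∧ J + 1 < n) ∨ (2 * I + 1 < n ∧ 4 * I + 2 * J + 3 = 3 * n ∧ J + 1 < n) ∨ ((n ≤ 2 * I + 1 ∧ I + 1 < n) ∧ 4 * I + 2 * J + 9 = 3 * n ∧ J + 1 < n) ∨ ((n ≤ 2 * I + 1 ∧ I + 1 < n) ∧ 4 * I + 2 * J + 11 = 5 * n ∧ J + 1 < n) ∨ (I + 1 = n ∧ J + 1 = n)))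

lemma cqorow (n I J : ℕ) (h : Pqo n I J) : ∃ x < 1, Gqorow n x I J := by
  rcases h with h | h | h | h | h
  exacts [⟨0, by norm_num, ⟨rfl, Or.inl (h)⟩⟩,
    ⟨0, by norm_num, ⟨rfl, Or.inr (Or.inl (h))⟩⟩,
    ⟨0, by norm_num, ⟨rfl, Or.inr (Or.inr (Or.inl (h)))⟩⟩,
    ⟨0, by norm_num, ⟨rfl, Or.inr (Or.inr (Or.inr (Or.inl (h))))⟩⟩,
    ⟨0, by norm_num, ⟨rfl, Or.inr (Or.inr (Or.inr (Or.inr (h))))⟩⟩]

lemma iqorow (n : ℕ) (hn : 6 ≤ n) (hm : n % 6 = 3) (x I J K L : ℕ) (hI : I < n) (hJ : J < n) (hK : K < n) (hL : L < n)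
    (e : I = K) (a : Gqorow n x I J) (b : Gqorow n x K L) : I = K ∧ J = L := by
  rcases a with ⟨a0, a⟩ <;> rcases b with ⟨b0, b⟩ <;> omega

lemma fqo (n : ℕ) (hn : 6 ≤ n) (hm : n % 6 = 3) (x y I J : ℕ) (a : Gqorow n x I J) (b : Gqorow n y I J) : x = y := by
  rcases a with ⟨a0, a⟩ <;> rcases b with ⟨b0, b⟩ <;> omega

lemma eqo (n : ℕ) (hn : 6 ≤ n) (hm : n % 6 = 3) (I : ℕ) (hI : I < n) (x : ℕ) (hx : x < 1) :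
    ∃ J < n, Pqo n I J ∧ Gqorow n x I J := by
  interval_cases x
  · have : (((1 * n - 1 - 4 * I) / 2) < n ∧ (2 * I + 1 < n ∧ 4 * I + 2 * ((1 * n - 1 - 4 * I) / 2) + 1 = 1 * n ∧ ((1 * n - 1 - 4 * I) / 2) + 1 < n)) ∨
      (((3 * n - 3 - 4 * I) / 2) < n ∧ (2 * I + 1 < n ∧ 4 * I + 2 * ((3 * n - 3 - 4 * I) / 2) + 3 = 3 * n ∧ ((3 * n - 3 - 4 * I) / 2) + 1 < n)) ∨
      (((3 * n - 9 - 4 * I) / 2) < n ∧ ((n ≤ 2 * I + 1 ∧ I + 1 < n) ∧ 4 * I + 2 * ((3 * n - 9 - 4 * I) / 2) + 9 = 3 * n ∧ ((3 * n - 9 - 4 * I) / 2) + 1 < n)) ∨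
      (((5 * n - 11 - 4 * I) / 2) < n ∧ ((n ≤ 2 * I + 1 ∧ I + 1 < n) ∧ 4 * I + 2 * ((5 * n - 11 - 4 * I) / 2) + 11 = 5 * n ∧ ((5 * n - 11 - 4 * I) / 2) + 1 < n)) ∨
      ((n - 1) < n ∧ (I + 1 = n ∧ (n - 1) + 1 = n)) := by omega
    rcases this with ⟨h0, h⟩ | ⟨h0, h⟩ | ⟨h0, h⟩ | ⟨h0, h⟩ | ⟨h0, h⟩
    exacts [⟨_, h0, Or.inl (h), ⟨rfl, Or.inl (h)⟩⟩,
      ⟨_, h0, Or.inr (Or.inl (h)), ⟨rfl, Or.inr (Or.inl (h))⟩⟩,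
      ⟨_, h0, Or.inr (Or.inr (Or.inl (h))), ⟨rfl, Or.inr (Or.inr (Or.inl (h)))⟩⟩,
      ⟨_, h0, Or.inr (Or.inr (Or.inr (Or.inl (h)))), ⟨rfl, Or.inr (Or.inr (Or.inr (Or.inl (h))))⟩⟩,
      ⟨_, h0, Or.inr (Or.inr (Or.inr (Or.inr (h)))), ⟨rfl, Or.inr (Or.inr (Or.inr (Or.inr (h))))⟩⟩]

def Gqocol (n x I J : ℕ) : Prop :=
  (x = 0 ∧ ((2 * I + 1 < n ∧ 4 * I + 2 * J + 1 = 1 * n ∧ J + 1 < n) ∨ (2 * I + 1 < n ∧ 4 * I + 2 * J + 3 = 3 * n ∧ J + 1 < n) ∨ ((n ≤ 2 * I + 1 ∧ I + 1 < n) ∧ 4 * I + 2 * J + 9 = 3 * n ∧ J + 1 < n) ∨ ((n ≤ 2 * I + 1 ∧ I + 1 < n) ∧ 4 * I + 2 * J + 11 = 5 * n ∧ J + 1 < n) ∨ (I + 1 = n ∧ J + 1 = n)))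

lemma cqocol (n I J : ℕ) (h : Pqo n I J) : ∃ x < 1, Gqocol n x I J := by
  rcases h with h | h | h | h | h
  exacts [⟨0, by norm_num, ⟨rfl, Or.inl (h)⟩⟩,
    ⟨0, by norm_num, ⟨rfl, Or.inr (Or.inl (h))⟩⟩,
    ⟨0, by norm_num, ⟨rfl, Or.inr (Or.inr (Or.inl (h)))⟩⟩,
    ⟨0, by norm_num, ⟨rfl, Or.inr (Or.inr (Or.inr (Or.inl (h))))⟩⟩,
    ⟨0, by norm_num, ⟨rfl, Or.inr (Or.inr (Or.inr (Or.inr (h))))⟩⟩]

lemma iqocol (n : ℕ) (hn : 6 ≤ n) (hm : n % 6 = 3) (x I J K L : ℕ) (hI : I < n) (hJ : J < n) (hK : K < n) (hL : L < n)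
    (e : J = L) (a : Gqocol n x I J) (b : Gqocol n x K L) : I = K ∧ J = L := by
  rcases a with ⟨a0, a⟩ <;> rcases b with ⟨b0, b⟩ <;> omega

def Gqoanti (n x I J : ℕ) : Prop :=
  (x = 0 ∧ ((2 * I + 1 < n ∧ 4 * I + 2 * J + 1 = 1 * n ∧ J + 1 < n) ∨ (2 * I + 1 < n ∧ 4 * I + 2 * J + 3 = 3 * n ∧ J + 1 < n) ∨ ((n ≤ 2 * I + 1 ∧ I + 1 < n) ∧ 4 * I + 2 * J + 9 = 3 * n ∧ J + 1 < n) ∨ ((n ≤ 2 * I + 1 ∧ I + 1 < n) ∧ 4 * I + 2 * J + 11 = 5 * n ∧ J + 1 < n) ∨ (I + 1 = n ∧ J + 1 = n)))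

lemma cqoanti (n I J : ℕ) (h : Pqo n I J) : ∃ x < 1, Gqoanti n x I J := by
  rcases h with h | h | h | h | h
  exacts [⟨0, by norm_num, ⟨rfl, Or.inl (h)⟩⟩,
    ⟨0, by norm_num, ⟨rfl, Or.inr (Or.inl (h))⟩⟩,
    ⟨0, by norm_num, ⟨rfl, Or.inr (Or.inr (Or.inl (h)))⟩⟩,
    ⟨0, by norm_num, ⟨rfl, Or.inr (Or.inr (Or.inr (Or.inl (h))))⟩⟩,
    ⟨0, by norm_num, ⟨rfl, Or.inr (Or.inr (Or.inr (Or.inr (h))))⟩⟩]

lemma iqoanti (n : ℕ) (hn : 6 ≤ n) (hm : n % 6 = 3) (x I J K L : ℕ) (hI : I < n) (hJ : J < n) (hK : K < n) (hL : L < n)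
    (e : I + J = K + L) (a : Gqoanti n x I J) (b : Gqoanti n x K L) : I = K ∧ J = L := by
  rcases a with ⟨a0, a⟩ <;> rcases b with ⟨b0, b⟩ <;> omega

def Gqodiag (n x I J : ℕ) : Prop :=
  (x = 0 ∧ ((2 * I + 1 < n ∧ 4 * I + 2 * J + 1 = 1 * n ∧ J + 1 < n) ∨ (2 * I + 1 < n ∧ 4 * I + 2 * J + 3 = 3 * n ∧ J + 1 < n) ∨ ((n ≤ 2 * I + 1 ∧ I + 1 < n) ∧ 4 * I + 2 * J + 9 = 3 * n ∧ J + 1 < n) ∨ ((n ≤ 2 * I + 1 ∧ I + 1 < n) ∧ 4 * I + 2 * J + 11 = 5 * n ∧ J + 1 < n) ∨ (I + 1 = n ∧ J + 1 = n)))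

lemma cqodiag (n I J : ℕ) (h : Pqo n I J) : ∃ x < 1, Gqodiag n x I J := by
  rcases h with h | h | h | h | h
  exacts [⟨0, by norm_num, ⟨rfl, Or.inl (h)⟩⟩,
    ⟨0, by norm_num, ⟨rfl, Or.inr (Or.inl (h))⟩⟩,
    ⟨0, by norm_num, ⟨rfl, Or.inr (Or.inr (Or.inl (h)))⟩⟩,
    ⟨0, by norm_num, ⟨rfl, Or.inr (Or.inr (Or.inr (Or.inl (h))))⟩⟩,
    ⟨0, by norm_num, ⟨rfl, Or.inr (Or.inr (Or.inr (Or.inr (h))))⟩⟩]

lemma iqodiag (n : ℕ) (hn : 6 ≤ n) (hm : n % 6 = 3) (x I J K L : ℕ) (hI : I < n) (hJ : J < n) (hK : K < n) (hL : L < n)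
    (e : I + L = K + J) (a : Gqodiag n x I J) (b : Gqodiag n x K L) : I = K ∧ J = L := by
  rcases a with ⟨a0, a⟩ <;> rcases b with ⟨b0, b⟩ <;> omega

lemma okqo (n : ℕ) (hn : 6 ≤ n) (hm : n % 6 = 3) : IsPlacement n 1 (bs n (Pqo n)) :=
  place n 1 _ _ _ _ _ (cqorow n) (cqocol n) (cqoanti n) (cqodiag n) (iqorow n hn hm) (iqocol n hn hm)
    (iqoanti n hn hm) (iqodiag n hn hm) (fqo n hn hm) (eqo n hn hm)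

lemma dq (n : ℕ) (hn : 6 ≤ n) : Disjoint (bs n (Pq1 n)) (bs n (Pt3 n)) := by
  rw [disjoint_left]
  intro p hp hq
  rw [mem_bs] at hp hq
  unfold Pq1 at hp; unfold Pt3 at hq
  omega

lemma dD (n : ℕ) (hn : 6 ≤ n) : Disjoint (bs n (Pdd n)) (bs n (Pt3 n)) := by
  rw [disjoint_left]
  intro p hp hq
  rw [mem_bs] at hp hq
  unfold Pdd at hp; unfold Pt3 at hq
  omega

lemma fin {n c e f : ℕ} {S T : Finset (Fin n × Fin n)} (hS : IsPlacement n c S)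
    (hT : IsPlacement n e T) (h : Disjoint S T) (hf : c + e = f) :
    ∃ S : Finset (Fin n × Fin n), IsPlacement n f S := ⟨_, hf ▸ union_ok hS hT h⟩

theorem result (n c : ℕ) (hn : 4 ≤ n) (hc : c ≤ n) :
    ∃ S : Finset (Fin n × Fin n), IsPlacement n c S := by
  by_cases h3 : 3 ∣ n
  swap
  · exact not3 n c hn hc h3
  have h6 : 6 ≤ n := by omega
  have hm : n % 6 = 0 ∨ n % 6 = 3 := by omega
  rcases hm with hm | hm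
  · have hs : ∀ e ≤ n, e % 6 = 0 → IsPlacement n e (sol n e 0) := fun e he h =>
      sol_ok n e 0 he (by rw [Nat.gcd_comm, Nat.gcd_rec, hm]; norm_num; omega)
    have : c % 6 = 0 ∨ c % 6 = 1 ∨ c % 6 = 2 ∨ c % 6 = 3 ∨ c % 6 = 4 ∨ c % 6 = 5 := by omega
    rcases this with h | h | h | h | h | h
    · exact ⟨_, hs c hc h⟩
    · exact fin (okq1 n h6 hm) (hs (c - 1) (by omega) (by omega)) (wq1 n _ h6 (by omega)) (by omega)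
    · exact fin (okdd n h6 (by omega)) (hs (c - 2) (by omega) (by omega)) (wdd n _ h6 (by omega))
        (by omega)
    · exact fin (okt3 n h6 hm) (hs (c - 3) (by omega) (by omega)) (wt3 n _ h6 (by omega)) (by omega)
    · exact fin (union_ok (okq1 n h6 hm) (okt3 n h6 hm) (dq n h6)) (hs (c - 4) (by omega) (by omega))
        (disjoint_union_left.2 ⟨wq1 n _ h6 (by omega), wt3 n _ h6 (by omega)⟩) (by omega)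
    · exact fin (union_ok (okdd n h6 (by omega)) (okt3 n h6 hm) (dD n h6))
        (hs (c - 5) (by omega) (by omega))
        (disjoint_union_left.2 ⟨wdd n _ h6 (by omega), wt3 n _ h6 (by omega)⟩) (by omega)
  · have hs : ∀ e ≤ n, e % 3 = 0 → IsPlacement n e (sol n e 0) := fun e he h =>
      sol_ok n e 0 he (by rw [Nat.gcd_comm, Nat.gcd_rec, hm]; norm_num; omega)
    have : c % 3 = 0 ∨ c = 1 ∨ (c % 3 = 1 ∧ 4 ≤ c) ∨ c % 3 = 2 := by omega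
    rcases this with h | rfl | h | h
    · exact ⟨_, hs c hc h⟩
    · exact ⟨_, okqo n h6 hm⟩
    · exact fin (okf4 n h6 hm) (hs (c - 4) (by omega) (by omega)) (wf4 n _ h6 (by omega)) (by omega)
    · exact fin (okdd n h6 (by omega)) (hs (c - 2) (by omega) (by omega)) (wdd n _ h6 (by omega))
        (by omega)

end Pool.Agent.Results.MP_712a2d_co.Full
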